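import Pool.Agent.Helper35.TF.Defs

/-!
Project TG (MP_185419_al: every finitely generated subgroup of a CAT(0) group is virtually solvable or has infinite girth), definitions.

* `InfGirth G`: there is `r ≥ 2` such that for every `k` there is a surjective homomorphism from the free group of rank `r` to `G` which is nontrivial on every
  nontrivial element of length `≤ k` (`G` has generating families of `r` elements without nontrivial relations of length `≤ k`).
* Letters `(p, e) : Fin 2 × Bool`; the values of `(0, true), (0, false), (1, true), (1, false)` for `x : Fin 4 → G` are `x 0 (x 1)⁻¹`, `x 1 (x 0)⁻¹`, `x 2 (x 3)⁻¹`, `x 3 (x 2)⁻¹` (`ltr`).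
* In the free group on `Fin 2 ⊕ Fin n`: `bw k (inl p) = p`, `bw k (inr i) = a^L i c^L`, `a = inl 0`, `c = inl 1`, `L = (k + 1) (i + 1)`. `sval`: the value of an optional letter of `Fin n`; `lval`: the value of a letter of `Fin 2`.
-/

set_option autoImplicit false

namespace TitsLF

universe u v

/-- Infinite girth. -/
def InfGirth (G : Type u) [Group G] : Prop :=
  ∃ r : ℕ, 2 ≤ r ∧ ∀ k : ℕ, ∃ f : FreeGroup (Fin r) →* G, Function.Surjective f ∧
    ∀ w : FreeGroup (Fin r), w ≠ 1 → w.toWord.length ≤ k → f w ≠ 1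

/-- The value of a letter. -/
def ltr {G : Type u} [Group G] (x : Fin 4 → G) : Fin 2 × Bool → G
  | (0, true) => x 0 * (x 1)⁻¹
  | (0, false) => x 1 * (x 0)⁻¹
  | (1, true) => x 2 * (x 3)⁻¹
  | (1, false) => x 3 * (x 2)⁻¹

/-- The new generators. -/
def bw (k : ℕ) {n : ℕ} : Fin 2 ⊕ Fin n → FreeGroup (Fin 2 ⊕ Fin n)
  | Sum.inl p => FreeGroup.of (Sum.inl p)
  | Sum.inr i => FreeGroup.of (Sum.inl 0) ^ ((k + 1) * ((i : ℕ) + 1)) * FreeGroup.of (Sum.inr i) *
      FreeGroup.of (Sum.inl 1) ^ ((k + 1) * ((i : ℕ) + 1))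

/-- The value of an optional shift. -/
def sval {n : ℕ} : Option (Fin n × Bool) → FreeGroup (Fin 2 ⊕ Fin n)
  | none => 1
  | some (i, true) => FreeGroup.of (Sum.inr i)
  | some (i, false) => (FreeGroup.of (Sum.inr i))⁻¹

/-- The value of a letter of `Fin 2`. -/
def lval {n : ℕ} : Fin 2 × Bool → FreeGroup (Fin 2 ⊕ Fin n)
  | (p, true) => FreeGroup.of (Sum.inl p)
  | (p, false) => (FreeGroup.of (Sum.inl p))⁻¹

end TitsLF
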