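import Pool.Agent.Helper35.TG.Defs

/-!
TG-04 Expand. Reduced words in the new generators, written as words with isolated inserted letters.

PROOF. `a = of (inl 0)`, `c = of (inl 1)`, `s_i = of (inr i)`, `L i = (k + 1) (i + 1)`, so `|L i - L j| ≥ k + 1` for `i ≠ j` and `L i ≥ k + 1`. For `q : Fin 2` and `x : ℤ` let `run q x = List.replicate x.natAbs (none, (q, decide (0 < x)))`; its value is `(lval (q, true))^x`.
Claim (induction on `W`, reduced, `W.length ≤ k`): `W = []` or there are `q : Fin 2`, `e off : ℤ`, `P'` such that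
 (a) the value of `W` (`lift (bw k) (mk W)`) is the value of `run q (e + off) ++ P'` (value = product of `sval p.1 * lval p.2`);
 (b) `|e| ≤ W.length`, `e + off ≠ 0`, `P'` is a chain for the relation, and `P' = []` or the head `p'` of `P'` has `p'.2.1 ≠ q`;
 (c) `off = 0`, or `q = 0 ∧ off = L i`, or `q = 1 ∧ off = - L i` for some `i`;
 (d) if `e ≠ 0` the head of `W` is `(inl q, decide (0 < e))`; if `e = 0` then `q = 0 ∧ off = L i` and the head of `W` is `(inr i, true)`, or `q = 1 ∧ off = - L i` and the head of `W` is `(inr i, false)`;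
 (e) `|e + off| + P'.length ≤ W.length * (2 * (k + 1) * (n + 1) + 1)` (any such bound).
Since the runs are chains and the junction is fine by `p'.2.1 ≠ q`, `run q (e + off) ++ P'` is a nonempty chain.
Step: prepend `ℓ` to `W` (`ℓ :: W` reduced, of length `≤ k`).
 * `ℓ = (inl p, sgn)`. `W = []`: `q = p`, `e = ±1`, `off = 0`, `P' = []`. `p = q`: `e` becomes `e ± 1`; if `off = 0` then `e ≠ 0` and by (d) and reducedness the sign is the same, so `e ± 1 ≠ 0` and (d) holds; if `off ≠ 0` then `|e ± 1| ≤ k < |off|`, so `e ± 1 + off ≠ 0`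
   (if `e ≠ 0` the signs agree again by (d), so the new (d) holds; if `e = 0` the new `e` is `±1`). `p ≠ q`: new `(p, ±1, 0, run q (e + off) ++ P')`.
 * `ℓ = (inr i, true)`, value `a^L s_i c^L * value W`, `L = L i`. `W = []`: `q = 0`, `e = 0`, `off = L`, `P' = (some (i, true), (1, true)) :: replicate (L - 1) (none, (1, true))`. If `q = 1`: `y = e + off + L` is `≠ 0`: for `off = 0` since `|e| ≤ k < L`; for `off = - L j`, `j ≠ i`, since `|L i - L j| ≥ k + 1 > |e|`;
   for `off = - L i`: `y = e`, and `e = 0` would mean that the head of `W` is `(inr i, false)`, not reduced. New `P' = (some (i, true), (1, decide (0 < y))) :: replicate (|y| - 1) (none, (1, decide (0 < y))) ++ P'`. If `q = 0`: new `P' = (some (i, true), (1, true)) :: replicate (L - 1) (none, (1, true)) ++ run 0 (e + off) ++ P'`.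
   In all cases the new data are `q = 0`, `e = 0`, `off = L`.
 * `ℓ = (inr i, false)`, value `c^(-L) s_i⁻¹ a^(-L) * value W`: symmetric (exchange `0` and `1` and the signs): new data `q = 1`, `e = 0`, `off = - L`, `P' = (some (i, false), (0, _)) :: …`.
-/

set_option autoImplicit false

namespace TitsLF

section

variable {k n : ℕ}

private abbrev Pr (n : ℕ) := Option (Fin n × Bool) × (Fin 2 × Bool)

private def RR (n : ℕ) (p q : Pr n) : Prop := p.2.1 = q.2.1 → p.2.2 = q.2.2

private def gq (n : ℕ) (q : Fin 2) : FreeGroup (Fin 2 ⊕ Fin n) := FreeGroup.of (Sum.inl q)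

private def ep (s : Bool) : ℤ := if s then 1 else -1

private def qs (s : Bool) : Fin 2 := if s then 0 else 1

private def LL (k : ℕ) {n : ℕ} (i : Fin n) : ℕ := (k + 1) * ((i : ℕ) + 1)

private def vP (P : List (Pr n)) : FreeGroup (Fin 2 ⊕ Fin n) :=
  (P.map (fun p => sval p.1 * lval p.2)).prod

private def run (o : Option (Fin n × Bool)) (q : Fin 2) (x : ℤ) : List (Pr n) :=
  (o, (q, decide (0 < x))) :: List.replicate (x.natAbs - 1) (none, (q, decide (0 < x)))

private lemma run_length (o : Option (Fin n × Bool)) (q : Fin 2) (x : ℤ) (hx : x ≠ 0) :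
    (run o q x).length = x.natAbs := by
  unfold run
  rw [List.length_cons, List.length_replicate]
  omega

private lemma lval_pow (q : Fin 2) (x : ℤ) :
    (lval (q, decide (0 < x)) : FreeGroup (Fin 2 ⊕ Fin n)) ^ x.natAbs = gq n q ^ x := by
  rcases lt_trichotomy x 0 with h | h | h
  · have h1 : decide (0 < x) = false := by
      rw [decide_eq_false_iff_not]
      omega
    rw [h1]
    obtain ⟨m, rfl⟩ : ∃ m : ℕ, x = -(m : ℤ) := ⟨x.natAbs, by omega⟩
    rw [Int.natAbs_neg, Int.natAbs_natCast, zpow_neg, zpow_natCast, ← inv_pow]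
    rfl
  · subst h
    simp
  · have h1 : decide (0 < x) = true := by
      rw [decide_eq_true_iff]
      exact h
    rw [h1]
    obtain ⟨m, rfl⟩ : ∃ m : ℕ, x = (m : ℤ) := ⟨x.natAbs, by omega⟩
    rw [Int.natAbs_natCast, zpow_natCast]
    rfl

private lemma vP_cons (p : Pr n) (P : List (Pr n)) : vP (p :: P) = sval p.1 * lval p.2 * vP P := by
  unfold vP
  rw [List.map_cons, List.prod_cons]

private lemma vP_append (P Q : List (Pr n)) : vP (P ++ Q) = vP P * vP Q := by
  unfold vP
  rw [List.map_append, List.prod_append]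

private lemma vP_run (o : Option (Fin n × Bool)) (q : Fin 2) (x : ℤ) (hx : x ≠ 0) :
    vP (run o q x) = sval o * gq n q ^ x := by
  obtain ⟨m, hm⟩ : ∃ m : ℕ, x.natAbs = m + 1 := ⟨x.natAbs - 1, by omega⟩
  rw [← lval_pow q x, hm, pow_succ']
  unfold run
  rw [vP_cons, hm, Nat.add_sub_cancel, mul_assoc]
  congr 2
  unfold vP
  rw [List.map_replicate, List.prod_replicate]
  change (1 * lval (q, decide (0 < x))) ^ m = _
  rw [one_mul]

private lemma run_mem (o : Option (Fin n × Bool)) (q : Fin 2) (x : ℤ) (p : Pr n)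
    (hp : p ∈ run o q x) : p.2 = (q, decide (0 < x)) := by
  unfold run at hp
  rcases List.mem_cons.1 hp with h | h
  · rw [h]
  · rw [List.eq_of_mem_replicate h]

private lemma chain_of_all (P : List (Pr n)) (c : Fin 2 × Bool) (h : ∀ p ∈ P, p.2 = c) :
    P.IsChain (RR n) := by
  induction P with
  | nil => exact List.isChain_nil
  | cons a P ih =>
    rw [List.isChain_cons]
    refine ⟨fun b hb _ => ?_, ih fun p hp => h p (List.mem_cons_of_mem _ hp)⟩
    rw [h a List.mem_cons_self, h b (List.mem_cons_of_mem _ (List.mem_of_mem_head? hb))]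

private lemma chain_run (o : Option (Fin n × Bool)) (q : Fin 2) (x : ℤ) (P : List (Pr n))
    (hP : P.IsChain (RR n)) (hq : ∀ p ∈ P.head?, p.2.1 ≠ q) : (run o q x ++ P).IsChain (RR n) := by
  rw [List.isChain_append]
  refine ⟨chain_of_all _ _ (run_mem o q x), hP, fun a ha b hb hab => ?_⟩
  have h1 := run_mem o q x a (List.mem_of_mem_getLast? ha)
  rw [h1] at hab
  exact absurd hab.symm (hq b hb)

private lemma head_run (o : Option (Fin n × Bool)) (q : Fin 2) (x : ℤ) (P : List (Pr n)) (p : Pr n)
    (hp : p ∈ (run o q x ++ P).head?) : p.2.1 = q := by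
  unfold run at hp
  rw [List.cons_append, List.head?_cons, Option.mem_some] at hp
  rw [← hp]

private lemma ep_cases (s : Bool) : (s = true ∧ ep s = 1) ∨ (s = false ∧ ep s = -1) := by
  cases s
  · right; exact ⟨rfl, rfl⟩
  · left; exact ⟨rfl, rfl⟩

private lemma dec_ep (s : Bool) : decide (0 < ep s) = s := by
  cases s
  · rfl
  · rfl

private lemma dec_ep_mul (s : Bool) (m : ℕ) (hm : 0 < m) : decide (0 < ep s * (m : ℤ)) = s := by
  rcases ep_cases s with ⟨h1, h2⟩ | ⟨h1, h2⟩
  · rw [h2, h1, decide_eq_true_iff]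
    omega
  · rw [h2, h1, decide_eq_false_iff_not]
    omega

private lemma natAbs_ep (x : ℤ) (s : Bool) : (x + ep s).natAbs ≤ x.natAbs + 1 := by
  rcases ep_cases s with ⟨_, h⟩ | ⟨_, h⟩ <;> rw [h] <;> omega

private lemma qs_ne (s : Bool) : qs s ≠ qs (!s) := by
  cases s <;> decide

private lemma qs_or (q : Fin 2) (s : Bool) : q = qs s ∨ q = qs (!s) := by
  revert q
  cases s <;> decide

private lemma qs_inj (s t : Bool) (h : qs s = qs t) : s = t := by
  revert h
  cases s <;> cases t <;> decide

private lemma v_inl (p : Fin 2) (s : Bool) (W : List ((Fin 2 ⊕ Fin n) × Bool)) :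
    FreeGroup.lift (bw k) (FreeGroup.mk ((Sum.inl p, s) :: W)) =
      gq n p ^ ep s * FreeGroup.lift (bw k) (FreeGroup.mk W) := by
  rw [FreeGroup.lift_mk, FreeGroup.lift_mk, List.map_cons, List.prod_cons]
  congr 1
  cases s
  · change (bw k (Sum.inl p))⁻¹ = gq n p ^ (-1 : ℤ)
    rw [zpow_neg_one]
    rfl
  · change bw k (Sum.inl p) = gq n p ^ (1 : ℤ)
    rw [zpow_one]
    rfl

private lemma v_inr (i : Fin n) (s : Bool) (W : List ((Fin 2 ⊕ Fin n) × Bool)) :
    FreeGroup.lift (bw k) (FreeGroup.mk ((Sum.inr i, s) :: W)) =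
      gq n (qs s) ^ (ep s * (LL k i : ℤ)) * (sval (some (i, s)) *
        (gq n (qs (!s)) ^ (ep s * (LL k i : ℤ)) * FreeGroup.lift (bw k) (FreeGroup.mk W))) := by
  rw [FreeGroup.lift_mk, FreeGroup.lift_mk, List.map_cons, List.prod_cons, ← mul_assoc, ← mul_assoc]
  congr 1
  cases s
  · change (bw k (Sum.inr i))⁻¹ = gq n 1 ^ (-1 * (LL k i : ℤ)) * (FreeGroup.of (Sum.inr i))⁻¹ *
      gq n 0 ^ (-1 * (LL k i : ℤ))
    rw [neg_one_mul, zpow_neg, zpow_neg, zpow_natCast, zpow_natCast]
    change (FreeGroup.of (Sum.inl 0) ^ ((k + 1) * ((i : ℕ) + 1)) * FreeGroup.of (Sum.inr i) *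
      FreeGroup.of (Sum.inl 1) ^ ((k + 1) * ((i : ℕ) + 1)))⁻¹ = _
    rw [mul_inv_rev, mul_inv_rev, mul_assoc]
    rfl
  · change bw k (Sum.inr i) = gq n 0 ^ (1 * (LL k i : ℤ)) * (FreeGroup.of (Sum.inr i)) *
      gq n 1 ^ (1 * (LL k i : ℤ))
    rw [one_mul, zpow_natCast, zpow_natCast]
    rfl

private def Good (k n : ℕ) (W : List ((Fin 2 ⊕ Fin n) × Bool)) : Prop :=
  ∃ (q : Fin 2) (e off : ℤ) (P' : List (Pr n)),
    FreeGroup.lift (bw k) (FreeGroup.mk W) = gq n q ^ (e + off) * vP P' ∧
    e.natAbs ≤ W.length ∧ e + off ≠ 0 ∧ P'.IsChain (RR n) ∧ (∀ p ∈ P'.head?, p.2.1 ≠ q) ∧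
    (off = 0 ∨ ∃ (i : Fin n) (s : Bool), q = qs s ∧ off = ep s * (LL k i : ℤ)) ∧
    (e ≠ 0 → W.head? = some (Sum.inl q, decide (0 < e))) ∧
    (e = 0 → ∃ (i : Fin n) (s : Bool), q = qs s ∧ off = ep s * (LL k i : ℤ) ∧
      W.head? = some (Sum.inr i, s)) ∧
    (e + off).natAbs + P'.length ≤ W.length * (2 * ((k + 1) * n) + 1)

private lemma LL_lower (i : Fin n) : k + 1 ≤ LL k i := by
  unfold LL
  exact Nat.le_mul_of_pos_right _ (Nat.succ_pos _)

private lemma LL_upper (i : Fin n) : LL k i ≤ (k + 1) * n := by
  unfold LL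
  exact Nat.mul_le_mul_left _ i.2

private lemma LL_diff (i j : Fin n) (hij : i ≠ j) :
    (k + 1 : ℤ) ≤ |(LL k i : ℤ) - (LL k j : ℤ)| := by
  have h1 : (LL k i : ℤ) - (LL k j : ℤ) = (k + 1 : ℤ) * ((i : ℕ) - (j : ℕ) : ℤ) := by
    unfold LL
    push_cast
    ring
  have h2 : ((i : ℕ) : ℤ) - ((j : ℕ) : ℤ) ≠ 0 := by
    intro h
    apply hij
    apply Fin.ext
    omega
  have h3 : 1 ≤ |((i : ℕ) : ℤ) - ((j : ℕ) : ℤ)| := Int.one_le_abs h2
  rw [h1, abs_mul, abs_of_nonneg (by positivity : (0 : ℤ) ≤ k + 1)]
  nlinarith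

private lemma LL_inj (i j : Fin n) (h : LL k i = LL k j) : i = j := by
  by_contra hij
  have h1 := LL_diff (k := k) i j hij
  rw [h, sub_self, abs_zero] at h1
  omega

private lemma good_step (ℓ : (Fin 2 ⊕ Fin n) × Bool) (W : List ((Fin 2 ⊕ Fin n) × Bool))
    (hred : FreeGroup.IsReduced (ℓ :: W)) (hlen : (ℓ :: W).length ≤ k)
    (ih : W = [] ∨ Good k n W) : Good k n (ℓ :: W) := by
  rw [List.length_cons] at hlen
  have hhd : ∀ b, W.head? = some b → (ℓ.1 = b.1 → ℓ.2 = b.2) := by
    intro b hb
    unfold FreeGroup.IsReduced at hred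
    rw [List.isChain_cons] at hred
    exact hred.1 b hb
  obtain ⟨l, s⟩ := ℓ
  rcases l with p | i
  · -- letter of the first kind
    rcases ih with rfl | ⟨q, e, off, P', hv, he, hne, hch, hh, hoff, hD2, hD3, hlenP⟩
    · refine ⟨p, ep s, 0, [], ?_, ?_, ?_, List.isChain_nil, ?_, Or.inl rfl, ?_, ?_, ?_⟩
      · rw [v_inl, add_zero]
        congr 1
      · rcases ep_cases s with ⟨_, h⟩ | ⟨_, h⟩ <;> rw [h] <;> simp
      · rcases ep_cases s with ⟨_, h⟩ | ⟨_, h⟩ <;> rw [h] <;> norm_num
      · intro p hp
        simp at hp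
      · intro _
        rw [dec_ep]
        rfl
      · intro h0
        rcases ep_cases s with ⟨_, h⟩ | ⟨_, h⟩ <;> rw [h] at h0 <;> norm_num at h0
      · rcases ep_cases s with ⟨_, h⟩ | ⟨_, h⟩ <;> rw [h] <;> simp
    · by_cases hpq : p = q
      · subst hpq
        -- the sign of e + ep s
        have hsgn : e + ep s ≠ 0 ∧ decide (0 < e + ep s) = s := by
          by_cases he0 : e = 0
          · rw [he0, zero_add, dec_ep]
            refine ⟨?_, rfl⟩
            rcases ep_cases s with ⟨_, h⟩ | ⟨_, h⟩ <;> rw [h] <;> norm_num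
          · have h1 := hhd _ (hD2 he0) rfl
            simp only at h1
            rcases ep_cases s with ⟨hs, h⟩ | ⟨hs, h⟩
            · rw [hs] at h1
              have h2 : 0 < e := by simpa using h1.symm
              rw [h, hs, decide_eq_true_iff]
              omega
            · rw [hs] at h1
              have h2 : ¬ 0 < e := by simpa using h1.symm
              rw [h, hs, decide_eq_false_iff_not]
              omega
        have habs : (e + ep s).natAbs ≤ W.length + 1 :=
          (natAbs_ep e s).trans (Nat.add_le_add_right he 1)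
        refine ⟨p, e + ep s, off, P', ?_, ?_, ?_, hch, hh, hoff, ?_, ?_, ?_⟩
        · rw [v_inl, hv, ← mul_assoc, ← zpow_add]
          congr 2
          ring
        · rw [List.length_cons]
          exact habs
        · rcases hoff with h0 | ⟨i, t, _, h0⟩
          · rw [h0, add_zero]
            exact hsgn.1
          · have h1 := LL_lower (k := k) i
            rcases ep_cases t with ⟨_, h2⟩ | ⟨_, h2⟩
            · rw [h0, h2]
              omega
            · rw [h0, h2]
              omega
        · intro _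
          rw [hsgn.2]
          rfl
        · intro h0
          exact absurd h0 hsgn.1
        · rw [List.length_cons, add_mul, one_mul]
          have h1 : (e + ep s + off).natAbs ≤ (e + off).natAbs + 1 := by
            have h2 := natAbs_ep (e + off) s
            rwa [add_right_comm] at h2
          clear hoff hD2 hD3
          omega
      · refine ⟨p, ep s, 0, run none q (e + off) ++ P', ?_, ?_, ?_, chain_run _ _ _ _ hch hh, ?_,
          Or.inl rfl, ?_, ?_, ?_⟩
        · rw [v_inl, add_zero, vP_append, vP_run _ _ _ hne, hv]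
          change _ = gq n p ^ ep s * ((1 * gq n q ^ (e + off)) * vP P')
          rw [one_mul]
        · rw [List.length_cons]
          rcases ep_cases s with ⟨_, h⟩ | ⟨_, h⟩ <;> rw [h] <;> simp
        · rcases ep_cases s with ⟨_, h⟩ | ⟨_, h⟩ <;> rw [h] <;> norm_num
        · intro r hr
          rw [head_run _ _ _ _ _ hr]
          exact fun h => hpq h.symm
        · intro _
          rw [dec_ep]
          rfl
        · intro h0
          rcases ep_cases s with ⟨_, h⟩ | ⟨_, h⟩ <;> rw [h] at h0 <;> norm_num at h0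
        · rw [List.length_cons, List.length_append, run_length _ _ _ hne, add_mul, one_mul]
          have h1 : (ep s + 0).natAbs = 1 := by
            rcases ep_cases s with ⟨_, h⟩ | ⟨_, h⟩ <;> rw [h] <;> rfl
          rw [h1]
          omega
  · -- letter of the second kind
    have hL1 := LL_lower (k := k) i
    have hL2 := LL_upper (k := k) i
    have hLne : ep s * (LL k i : ℤ) ≠ 0 := by
      rcases ep_cases s with ⟨_, h⟩ | ⟨_, h⟩ <;> rw [h] <;> omega
    have hLabs : (ep s * (LL k i : ℤ)).natAbs = LL k i := by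
      rcases ep_cases s with ⟨_, h⟩ | ⟨_, h⟩ <;> rw [h] <;> omega
    -- it is enough to find the rest
    suffices hP : ∃ P'' : List (Pr n), sval (some (i, s)) *
        (gq n (qs (!s)) ^ (ep s * (LL k i : ℤ)) * FreeGroup.lift (bw k) (FreeGroup.mk W)) = vP P'' ∧
        P''.IsChain (RR n) ∧ (∀ p ∈ P''.head?, p.2.1 = qs (!s)) ∧
        P''.length ≤ LL k i + W.length * (2 * ((k + 1) * n) + 1) by
      obtain ⟨P'', hv, hch, hh, hl⟩ := hP
      refine ⟨qs s, 0, ep s * (LL k i : ℤ), P'', ?_, ?_, ?_, hch, ?_, Or.inr ⟨i, s, rfl, rfl⟩, ?_,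
        ?_, ?_⟩
      · rw [v_inr, hv, zero_add]
      · simp
      · rw [zero_add]
        exact hLne
      · intro p hp
        rw [hh p hp]
        exact (qs_ne s).symm
      · intro h
        exact absurd rfl h
      · intro _
        exact ⟨i, s, rfl, rfl, rfl⟩
      · rw [zero_add, hLabs, List.length_cons, add_mul, one_mul]
        omega
    rcases ih with rfl | ⟨q, e, off, P', hv, he, hne, hch, hh, hoff, hD2, hD3, hlenP⟩
    · refine ⟨run (some (i, s)) (qs (!s)) (ep s * (LL k i : ℤ)) ++ [], ?_,
        chain_run _ _ _ _ List.isChain_nil (by intro p hp; simp at hp), ?_, ?_⟩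
      · rw [List.append_nil, vP_run _ _ _ hLne]
        have h1 : FreeGroup.lift (bw k) (FreeGroup.mk ([] : List ((Fin 2 ⊕ Fin n) × Bool))) = 1 := by
          rw [FreeGroup.lift_mk]
          rfl
        rw [h1, mul_one]
      · intro p hp
        exact head_run _ _ _ _ _ hp
      · rw [List.append_nil, run_length _ _ _ hLne, hLabs]
        omega
    · rcases qs_or q s with hq | hq
      · -- the other generator in front
        have hh2 : ∀ p ∈ (run none q (e + off) ++ P').head?, p.2.1 ≠ qs (!s) := by
          intro p hp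
          rw [head_run _ _ _ _ _ hp, hq]
          exact qs_ne s
        refine ⟨run (some (i, s)) (qs (!s)) (ep s * (LL k i : ℤ)) ++ (run none q (e + off) ++ P'),
          ?_, chain_run _ _ _ _ (chain_run _ _ _ _ hch hh) hh2, ?_, ?_⟩
        · rw [vP_append, vP_append, vP_run _ _ _ hLne, vP_run _ _ _ hne, hv, mul_assoc]
          change _ = sval (some (i, s)) * (gq n (qs !s) ^ (ep s * (LL k i : ℤ)) *
            ((1 * gq n q ^ (e + off)) * vP P'))
          rw [one_mul]
        · intro p hp
          exact head_run _ _ _ _ _ hp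
        · rw [List.length_append, List.length_append, run_length _ _ _ hLne,
            run_length _ _ _ hne, hLabs]
          omega
      · -- the same generator
        have hy : ep s * (LL k i : ℤ) + (e + off) ≠ 0 := by
          rcases hoff with h0 | ⟨j, t, ht, h0⟩
          · rw [h0, add_zero]
            rcases ep_cases s with ⟨_, h⟩ | ⟨_, h⟩ <;> rw [h] <;> omega
          · have hts : t = !s := (qs_inj _ _ (hq.symm.trans ht)).symm
            have hept : ep t = -ep s := by
              rw [hts]
              cases s <;> rfl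
            have h1 : ep s * (LL k i : ℤ) + (e + off) =
                e + ep s * ((LL k i : ℤ) - (LL k j : ℤ)) := by
              rw [h0, hept]
              ring
            rw [h1]
            by_cases hij : i = j
            · subst hij
              rw [sub_self, mul_zero, add_zero]
              intro he0
              obtain ⟨i2, t2, hq2, hoff2, hhd2⟩ := hD3 he0
              have ht2 : t2 = !s := (qs_inj _ _ (hq.symm.trans hq2)).symm
              have hept2 : ep t2 = -ep s := by
                rw [ht2]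
                cases s <;> rfl
              have hLi : LL k i2 = LL k i := by
                rw [h0, hept, hept2] at hoff2
                rcases ep_cases s with ⟨_, h⟩ | ⟨_, h⟩ <;> rw [h] at hoff2 <;> omega
              have hi2 := LL_inj _ _ hLi
              subst hi2
              have h5 := hhd _ hhd2 rfl
              simp only at h5
              rw [ht2] at h5
              cases s <;> simp at h5
            · have h2 := LL_diff (k := k) i j hij
              have h3 : |e| ≤ k := by
                rw [Int.abs_eq_natAbs]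
                omega
              intro h4
              have h6 : |ep s * ((LL k i : ℤ) - (LL k j : ℤ))| = |e| := by
                have h7 : ep s * ((LL k i : ℤ) - (LL k j : ℤ)) = -e := by linarith
                rw [h7, abs_neg]
              rw [abs_mul] at h6
              have h8 : |ep s| = 1 := by
                rcases ep_cases s with ⟨_, h⟩ | ⟨_, h⟩ <;> rw [h] <;> rfl
              rw [h8, one_mul] at h6
              omega
        refine ⟨run (some (i, s)) q (ep s * (LL k i : ℤ) + (e + off)) ++ P', ?_,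
          chain_run _ _ _ _ hch hh, ?_, ?_⟩
        · rw [vP_append, vP_run _ _ _ hy, hv, ← hq, zpow_add (gq n q) (ep s * (LL k i : ℤ)) (e + off)]
          simp only [mul_assoc]
        · intro p hp
          rw [head_run _ _ _ _ _ hp, hq]
        · rw [List.length_append, run_length _ _ _ hy]
          have h1 : (ep s * (LL k i : ℤ) + (e + off)).natAbs ≤ LL k i + (e + off).natAbs := by
            refine (Int.natAbs_add_le _ _).trans ?_
            rw [hLabs]
          omega

private lemma good_all (W : List ((Fin 2 ⊕ Fin n) × Bool)) (hred : FreeGroup.IsReduced W)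
    (hlen : W.length ≤ k) : W = [] ∨ Good k n W := by
  induction W with
  | nil => exact Or.inl rfl
  | cons ℓ W ih =>
    right
    have h1 : FreeGroup.IsReduced W := by
      unfold FreeGroup.IsReduced at hred ⊢
      rw [List.isChain_cons] at hred
      exact hred.2
    exact good_step ℓ W hred hlen (ih h1 (by
      rw [List.length_cons] at hlen
      omega))

end

theorem expand (k n : ℕ) : ∃ K : ℕ, ∀ W : List ((Fin 2 ⊕ Fin n) × Bool), FreeGroup.IsReduced W →
    W ≠ [] → W.length ≤ k →
    ∃ P : List (Option (Fin n × Bool) × (Fin 2 × Bool)), P ≠ [] ∧ P.length ≤ K ∧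
      P.IsChain (fun p q => p.2.1 = q.2.1 → p.2.2 = q.2.2) ∧
      FreeGroup.lift (bw k) (FreeGroup.mk W) = (P.map (fun p => sval p.1 * lval p.2)).prod := by
  refine ⟨k * (2 * ((k + 1) * n) + 1), fun W hred hne hlen => ?_⟩
  rcases good_all (k := k) (n := n) W hred hlen with h | h
  · exact absurd h hne
  · obtain ⟨q, e, off, P', hv, -, h0, hch, hh, -, -, -, hl⟩ := h
    refine ⟨run none q (e + off) ++ P', ?_, ?_, chain_run _ _ _ _ hch hh, ?_⟩
    · intro h
      have h1 := congrArg List.length h
      rw [List.length_append, run_length _ _ _ h0, List.length_nil] at h1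
      omega
    · rw [List.length_append, run_length _ _ _ h0]
      exact hl.trans (Nat.mul_le_mul_right _ hlen)
    · change _ = vP (run none q (e + off) ++ P')
      rw [vP_append, vP_run _ _ _ h0, hv]
      change _ = 1 * gq n q ^ (e + off) * vP P'
      rw [one_mul]

end TitsLF
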