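import Pool.Agent.Helper35.TG.GirthMain
import Pool.Agent.Helper35.TF.CaseOneS
import Pool.Agent.Helper35.TF.CaseTwoS
import Pool.Agent.Helper35.TT.Proper

/-!
TG-07 FinalG. Finitely generated subgroups of CAT(0) groups are virtually solvable or have infinite girth.
-/

set_option autoImplicit false

namespace TitsLF

universe u v

theorem reiter_of_surjective {H Q : Type u} [Group H] [Group Q] (π : H →* Q)
    (hπ : Function.Surjective π) (h : Reiter H) : Reiter Q := by
  classical
  intro S' ε hε
  obtain ⟨f, hf0, hf1, hf2⟩ := h (S'.image (Function.surjInv hπ)) ε hε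
  refine ⟨f.mapDomain π, fun b => ?_, ?_, fun s' hs' => ?_⟩
  · rw [Finsupp.mapDomain, Finsupp.sum_apply, Finsupp.sum]
    refine Finset.sum_nonneg fun a _ => ?_
    rw [Finsupp.single_apply]
    split_ifs
    · exact hf0 a
    · exact le_rfl
  · rw [Finsupp.sum_mapDomain_index (fun _ => rfl) (fun _ _ _ => rfl)]
    exact hf1
  · have h1 := hf2 (Function.surjInv hπ s') (Finset.mem_image_of_mem _ hs')
    have h2 : (f.mapDomain π).mapDomain (fun g => g * s') =
        (f.mapDomain (fun g => g * Function.surjInv hπ s')).mapDomain π := by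
      rw [← Finsupp.mapDomain_comp, ← Finsupp.mapDomain_comp]
      congr 1
      funext g
      simp only [Function.comp_apply, map_mul, Function.surjInv_eq hπ s']
    rw [h2, ← Finsupp.mapDomain_sub]
    exact (l1_mapDomain_le _ _).trans h1

theorem vsolv_of_bus_reiter {G : Type u} {X : Type v} [Group G] [MetricSpace X] [MulAction G X]
    (h : Act G X) {n : ℕ} (hn : ¬ Frame X (n + 1))
    (ih : ∀ (Q : Type u) (Y : Type v) [Group Q] [MetricSpace Y] [MulAction Q Y], Act Q Y →
      ¬ Frame Y n → ∀ S : Finset Q, Reiter (Subgroup.closure (S : Set Q)) →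
        VSolv (Subgroup.closure (S : Set Q)))
    (S : Finset G) (hS : Reiter (Subgroup.closure (S : Set G)))
    {b : X → ℝ} (hb : IsBus b) (hq : QInv (Subgroup.closure (S : Set G)) b) :
    VSolv (Subgroup.closure (S : Set G)) := by
  have hinf := centralizer_infinite h S hb hq
  obtain ⟨C, hC, -⟩ := act_centralizer h S
  obtain ⟨z, hz⟩ := exists_not_finOrder hC hinf
  have hz' : ¬ IsOfFinOrder (z : G) := fun hf => hz (Submonoid.isOfFinOrder_coe.1 hf)
  have hle : Subgroup.closure (S : Set G) ≤
      Subgroup.centralizer ((({(z : G)} : Finset G)) : Set G) := by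
    rw [Subgroup.closure_le]
    intro s hs
    rw [SetLike.mem_coe, Subgroup.mem_centralizer_iff]
    intro y hy
    have hy' : y = z := by simpa using hy
    rw [hy']
    exact (Subgroup.mem_centralizer_iff.1 z.2 s hs).symm
  obtain ⟨Q, iQ, Y, iY, iA, π, hAct, hFr, hsurj, hker, -, -⟩ := descend h hz'
  set θ : Subgroup.closure (S : Set G) →* Q := π.comp (Subgroup.inclusion hle) with hθ
  have hfin : (θ '' (((↑) : Subgroup.closure (S : Set G) → G) ⁻¹' (S : Set G))).Finite :=
    (S.finite_toSet.preimage Subtype.val_injective.injOn).image θ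
  have hrange : Subgroup.closure ((hfin.toFinset : Finset Q) : Set Q) = θ.range := by
    rw [Set.Finite.coe_toFinset, ← MonoidHom.map_closure, Subgroup.closure_closure_coe_preimage,
      MonoidHom.range_eq_map]
  have hsr := θ.rangeRestrict_surjective
  have h1 : Reiter θ.range := reiter_of_surjective θ.rangeRestrict hsr hS
  have h2 := ih Q Y hAct (fun hF => hn (hFr n hF)) hfin.toFinset (by
    rw [hrange]
    exact h1)
  rw [hrange] at h2
  refine vsolv_of_central_ker θ.rangeRestrict hsr ?_ h2
  rw [MonoidHom.ker_rangeRestrict]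
  intro x hx
  have h3 : π (Subgroup.inclusion hle x) = 1 := hx
  have h4 := Subgroup.mem_center_iff.1 (hker _ h3)
  rw [Subgroup.mem_center_iff]
  intro y
  have h5 := h4 (Subgroup.inclusion hle y)
  have h6 := congrArg Subtype.val h5
  exact Subtype.ext h6

theorem amen_aux (n : ℕ) : ∀ (G : Type u) (X : Type v) [Group G] [MetricSpace X]
    [MulAction G X], Act G X → ¬ Frame X n → ∀ S : Finset G,
      Reiter (Subgroup.closure (S : Set G)) → VSolv (Subgroup.closure (S : Set G)) := by
  induction n with
  | zero =>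
    intro G X _ _ _ h hn
    obtain ⟨o⟩ := h.ne
    exact absurd ⟨o, Fin.elim0, fun i => i.elim0, fun i => i.elim0⟩ hn
  | succ n ih =>
    intro G X _ _ _ h hn S hR
    haveI : Group.FG (Subgroup.closure (S : Set G)) :=
      (Group.fg_iff_subgroup_fg _).2 ⟨S, rfl⟩
    rcases bus_or_vsolv (h.wact.sub (Subgroup.closure (S : Set G)))
      (fun x R => (h.fin x R).preimage (Subtype.val_injective.injOn)) hR hn with
      ⟨b, hb, hq⟩ | hv
    · exact vsolv_of_bus_reiter h hn ih S hR hb hq
    · exact hv

theorem girth_alternative {G : Type u} {X : Type v} [Group G] [MetricSpace X] [MulAction G X]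
    (h : Geom G X) (H : Subgroup G) (hH : H.FG) : VSolv H ∨ InfGirth H := by
  have h1 := act_of_geom h
  haveI := h1.cat
  obtain ⟨n, hn⟩ := frame_bdd h1
  by_cases hR : Reiter H
  · left
    obtain ⟨S, rfl⟩ := hH
    exact amen_aux n G X h1 hn S hR
  · right
    haveI : Group.FG H := (Group.fg_iff_subgroup_fg _).2 hH
    obtain ⟨o⟩ := h1.ne
    refine infGirth_of_not_reiter (fun g x y => h1.iso (g : G) x y) o (fun R => ?_) ?_ hR
    · have h2 : {g : H | dist (g • o) o ≤ R} =
          (fun g : H => (g : G)) ⁻¹' {g : G | dist (g • o) o ≤ R} := rfl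
      rw [h2]
      exact (h1.fin o R).preimage (Subtype.coe_injective.injOn)
    · obtain ⟨C, V, hC, hV, hb⟩ := orbit_growth h1 o
      refine ⟨C, V, hC, hV, fun R hR T hT => ?_⟩
      have h3 := hb R hR (T.map ⟨fun g : H => (g : G), Subtype.coe_injective⟩) (by
        intro g hg
        obtain ⟨g', hg', rfl⟩ := Finset.mem_map.1 hg
        exact hT g' hg')
      rwa [Finset.card_map] at h3

end TitsLF
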