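import Pool.Agent.Helper35.TG.Defs
import Pool.Agent.Helper35.TT.Chain

/-!
TG-05 PairChain. Words with inserted letters are nontrivial.

PROOF. As `words_ne` (`TT/Chain.lean`). `P = [(s_1, a_1), …, (s_l, a_l)]`, `1 ≤ l ≤ K`; with `hf (0, true) = x 0`, `hf (0, false) = x 1`, `hf (1, true) = x 2`, `hf (1, false) = x 3` one has `ltr x a = hf a * (hf a')⁻¹`, `a' = (a.1, !a.2)`, and `hf a' ` and `hf b` have different indices
if `a.1 = b.1 → a.2 = b.2` (`chIdx_ne`). `Q j = s_1 ltr(a_1) ⋯ s_j ltr(a_j)`; `R (2 j) = Q j • o`, `R (2 j + 1) = (Q j * s_(j+1) * hf a_(j+1)) • o`.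
* `dist (R 0) (R 1) = dist o ((s_1 * hf a_1) • o) ≥ dist o (hf a_1 • o) - dist o (s_1 • o) ≥ c - δ`.
* `i = 2 j + 1`: translate by the inverse of `Q j s hf a`, `(s, a) = (s_(j+1), a_(j+1))`: the three points are `((hf a)⁻¹ * s⁻¹) • o`, `o`, `(hf a')⁻¹ • o`. The first is within `dist o (s⁻¹ • o) ≤ δ` of `(hf a)⁻¹ • o`, so the midpoint moves by at most `δ/2` (`mid_lip2`), and
  `dist o (mid ((hf a)⁻¹ • o) ((hf a')⁻¹ • o)) ≤ δ` (`h3`, `h4`, `mid_comm`): total `≤ 2 δ`.
* `i = 2 j`, `0 < j < l`: translate by the inverse of `Q j`: the points are `hf a_j' • o`, `o`, `(s_(j+1) * hf a_(j+1)) • o`: `h2`, `≤ δ`.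
`chain_growth` with `c - δ`, `2 δ`, `n = 2 l`: `dist (R 0) (R (2 l)) ≥ 2 l (c - δ) - 4 l^2 (2 δ)... ` precisely `(2 l)(c - δ) - (2 l)^2 (2 δ) = 2 l (c - δ - 4 l δ) > 0` since `(4 K + 1) δ < c`. So the product moves `o`.
-/

set_option autoImplicit false

namespace TitsLF

universe u v

private def pIdx : Fin 2 × Bool → Fin 4
  | (0, true) => 0
  | (0, false) => 1
  | (1, true) => 2
  | (1, false) => 3

private theorem pIdx_ne (a b : Fin 2 × Bool) (h : a.1 = b.1 → a.2 = b.2) :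
    pIdx (a.1, !a.2) ≠ pIdx b := by
  revert a b
  decide

private theorem ltr_eq {G : Type u} [Group G] (x : Fin 4 → G) (a : Fin 2 × Bool) :
    ltr x a = x (pIdx a) * (x (pIdx (a.1, !a.2)))⁻¹ := by
  obtain ⟨i, b⟩ := a
  fin_cases i <;> cases b <;> rfl

theorem pairs_ne {G : Type u} {X : Type v} [Group G] [MetricSpace X] [MulAction G X] [CAT X]
    (hiso : ∀ (g : G) (x y : X), dist (g • x) (g • y) = dist x y) (o : X)
    {S : Finset G} (hS : ∀ s ∈ S, s⁻¹ ∈ S) (x : Fin 4 → G) (K : ℕ) {c δ : ℝ} (hδ : 0 ≤ δ)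
    (hc : (4 * (K : ℝ) + 1) * δ < c) (h0 : ∀ s ∈ S, dist o (s • o) ≤ δ)
    (h1 : ∀ i, c ≤ dist o (x i • o))
    (h2 : ∀ i j, i ≠ j → ∀ s ∈ S, dist o (mid (x i • o) ((s * x j) • o)) ≤ δ)
    (h3 : dist o (mid ((x 0)⁻¹ • o) ((x 1)⁻¹ • o)) ≤ δ)
    (h4 : dist o (mid ((x 2)⁻¹ • o) ((x 3)⁻¹ • o)) ≤ δ)
    (P : List (G × (Fin 2 × Bool))) (hP : P ≠ []) (hK : P.length ≤ K) (hPS : ∀ p ∈ P, p.1 ∈ S)
    (hch : P.IsChain (fun p q => p.2.1 = q.2.1 → p.2.2 = q.2.2)) :
    (P.map (fun p => p.1 * ltr x p.2)).prod ≠ 1 := by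
  have hdm : ∀ (g : G) (p q : X), dist (g • o) (mid (g • p) (g • q)) = dist o (mid p q) := by
    intro g p q
    have h5 := eq_mid ((mid_spec p q).map (f := fun z : X => g • z) (hiso g))
    rw [← h5, hiso]
  have hinv : ∀ a : Fin 2 × Bool,
      dist o (mid ((x (pIdx a))⁻¹ • o) ((x (pIdx (a.1, !a.2)))⁻¹ • o)) ≤ δ := by
    rintro ⟨i, b⟩
    fin_cases i <;> cases b
    · rw [mid_comm]
      exact h3
    · exact h3
    · rw [mid_comm]
      exact h4
    · exact h4
  intro hone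
  rw [List.isChain_iff_getElem] at hch
  have hLne : 1 ≤ P.length := by
    by_contra hcon
    exact hP (List.eq_nil_of_length_eq_zero (by omega))
  have hmem : ∀ j (hj : j < P.length), (P[j]).1 ∈ S := fun j hj => hPS _ (List.getElem_mem hj)
  set ev : G × (Fin 2 × Bool) → G := fun p => p.1 * ltr x p.2 with hev
  have hevv : ∀ p, ev p = p.1 * x (pIdx p.2) * (x (pIdx (p.2.1, !p.2.2)))⁻¹ := by
    intro p
    rw [hev]
    simp only
    rw [ltr_eq, mul_assoc]
  set Q : ℕ → G := fun j => ((P.map ev).take j).prod with hQ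
  have hQ0 : Q 0 = 1 := by simp [hQ]
  have hQs : ∀ j (hj : j < P.length), Q (j + 1) = Q j * ev P[j] := by
    intro j hj
    simp only [hQ]
    rw [List.prod_take_succ _ _ (by simpa using hj), List.getElem_map]
  have hQl : Q P.length = 1 := by
    simp only [hQ]
    rw [List.take_of_length_le (by simp), hone]
  set R : ℕ → X := fun i => if i % 2 = 0 then Q (i / 2) • o else
    (Q (i / 2) * ((P.getD (i / 2) (1, (0, true))).1 *
      x (pIdx (P.getD (i / 2) (1, (0, true))).2))) • o with hR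
  have hRe : ∀ j, R (2 * j) = Q j • o := by
    intro j
    simp only [hR]
    rw [if_pos (by omega), show 2 * j / 2 = j by omega]
  have hRo : ∀ j (hj : j < P.length), R (2 * j + 1) = (Q j * (P[j].1 * x (pIdx P[j].2))) • o := by
    intro j hj
    simp only [hR]
    rw [if_neg (by omega), show (2 * j + 1) / 2 = j by omega, List.getD_eq_getElem _ _ hj]
  have e0 : R 0 = o := by
    have := hRe 0
    rw [mul_zero, hQ0, one_smul] at this
    exact this
  have hgrow := chain_growth R (c := c - δ) (δ := 2 * δ) (n := 2 * P.length) (by linarith)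
    (by
      have e1 : R 1 = (P[0].1 * x (pIdx P[0].2)) • o := by
        have := hRo 0 (by omega)
        rw [mul_zero, zero_add, hQ0, one_mul] at this
        exact this
      rw [e0, e1]
      have h5 := h0 _ (hmem 0 (by omega))
      have h6 := h1 (pIdx P[0].2)
      have h7 : dist (P[0].1 • o) ((P[0].1 * x (pIdx P[0].2)) • o) =
          dist o (x (pIdx P[0].2) • o) := by
        rw [mul_smul, hiso]
      have h8 := dist_triangle_left (P[0].1 • o) ((P[0].1 * x (pIdx P[0].2)) • o) o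
      linarith)
    (by
      intro i hi1 hi2
      rcases Nat.even_or_odd' i with ⟨j, rfl | rfl⟩
      · -- even
        obtain ⟨m, rfl⟩ : ∃ m, j = m + 1 := ⟨j - 1, by omega⟩
        have hm : m < P.length := by omega
        have hm1 : m + 1 < P.length := by omega
        have e1 : R (2 * (m + 1) - 1) = Q (m + 1) • (x (pIdx (P[m].2.1, !P[m].2.2)) • o) := by
          rw [show 2 * (m + 1) - 1 = 2 * m + 1 by omega, hRo m hm, hQs m hm, hevv, ← mul_smul]
          congr 1
          group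
        have e2 : R (2 * (m + 1) + 1) =
            Q (m + 1) • ((P[m + 1].1 * x (pIdx P[m + 1].2)) • o) := by
          rw [hRo (m + 1) hm1, mul_smul]
        rw [hRe, e1, e2, hdm]
        have h5 := h2 _ _ (pIdx_ne _ _ (hch m hm1)) _ (hmem (m + 1) hm1)
        linarith
      · -- odd
        have hj : j < P.length := by omega
        have e1 : R (2 * j + 1 - 1) =
            (Q j * (P[j].1 * x (pIdx P[j].2))) • ((P[j].1 * x (pIdx P[j].2))⁻¹ • o) := by
          rw [show 2 * j + 1 - 1 = 2 * j by omega, hRe, ← mul_smul]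
          congr 1
          group
        have e2 : R (2 * j + 1 + 1) =
            (Q j * (P[j].1 * x (pIdx P[j].2))) • ((x (pIdx (P[j].2.1, !P[j].2.2)))⁻¹ • o) := by
          rw [show 2 * j + 1 + 1 = 2 * (j + 1) by ring, hRe, hQs j hj, hevv, ← mul_smul]
          congr 1
          group
        rw [e1, e2, hRo j hj, hdm]
        have h5 := hinv P[j].2
        have h6 := mid_lip2 ((x (pIdx P[j].2))⁻¹ • o) ((x (pIdx (P[j].2.1, !P[j].2.2)))⁻¹ • o)
          ((P[j].1 * x (pIdx P[j].2))⁻¹ • o) ((x (pIdx (P[j].2.1, !P[j].2.2)))⁻¹ • o)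
        have h7 : dist ((x (pIdx P[j].2))⁻¹ • o) ((P[j].1 * x (pIdx P[j].2))⁻¹ • o) =
            dist o (P[j].1⁻¹ • o) := by
          rw [mul_inv_rev, mul_smul, hiso]
        have h8 := h0 _ (hS _ (hmem j hj))
        have h9 := dist_triangle o
          (mid ((x (pIdx P[j].2))⁻¹ • o) ((x (pIdx (P[j].2.1, !P[j].2.2)))⁻¹ • o))
          (mid ((P[j].1 * x (pIdx P[j].2))⁻¹ • o) ((x (pIdx (P[j].2.1, !P[j].2.2)))⁻¹ • o))
        rw [h7, dist_self] at h6
        linarith)
    (2 * P.length) (by omega) le_rfl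
  rw [hRe, hQl, one_smul, e0, dist_self] at hgrow
  push_cast at hgrow
  have hl1 : (1 : ℝ) ≤ P.length := by exact_mod_cast hLne
  have hlk : (P.length : ℝ) ≤ K := by exact_mod_cast hK
  have h5 : (4 * (P.length : ℝ) + 1) * δ < c := by
    refine lt_of_le_of_lt ?_ hc
    gcongr
  nlinarith

end TitsLF
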