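import Pool.Agent.Helper35.TG.Shift

/-!
TG-03 SelectS. Four elements such that `o` is nearly the midpoint of all relevant pairs, also with an inserted letter.

PROOF. As `select` (`TT/Select.lean`), whose private lemmas (`four`, `le_of_term`, `mid_inv`, `dist_inv`) may be copied. Let `κ' = κ/2`, `M x y = ∑ s ∈ S, dist o (mid (x • o) ((s * y) • o))^2`, `M' x y = dist o (mid (x⁻¹ • o) (y⁻¹ • o))^2`,
`I x = if dist o (x • o) < c m then 1 else 0`. `shift_small` with `η = κ'^2/(16 q)` (`q = S.card`; `s = 1` also bounds `EE M' = EE (dist o (mid (x o) (y o))^2)`, `E_inv`) and `hsmall` give a large `m = 2^j` with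
`4 E I + (1/(κ' m)^2) (6 EE M + 2 EE M') < 1`, and moreover `m` so large that `r ≤ κ' m` for `r = ∑ s ∈ S, dist o (s • o)`. `four` gives `a b c d = x 0, …, x 3`. All terms are nonnegative and so each is `< 1`: `dist o (mid (x i • o) ((s * x j) • o)) ≤ κ' m` for `i < j`, `s ∈ S`.
For `i > j`: `mid (x i • o) ((s * x j) • o) = s • mid (x j • o) ((s⁻¹ * x i) • o)` (`IsMid.map`, `eq_mid`, `mid_comm`), so its distance to `o` is `dist (s⁻¹ • o) (mid …) ≤ dist o (s⁻¹ • o) + κ' m ≤ 2 κ' m = κ m`.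
-/

set_option autoImplicit false

namespace TitsLF

open Filter Topology

universe u v

section aux

variable {G : Type u} {X : Type v} [Group G] [MetricSpace X] [MulAction G X] [CAT X]

variable {S : Finset G}

private lemma dist_inv (hiso : ∀ (g : G) (x y : X), dist (g • x) (g • y) = dist x y) (o : X) (x y : G) :
    dist (x • o) (y • o) = dist o ((x⁻¹ * y) • o) := by
  rw [← hiso x⁻¹ (x • o) (y • o), inv_smul_smul, mul_smul]

private lemma mid_inv (o : X) (hS : ∀ s ∈ S, s⁻¹ ∈ S) (m : ℕ) :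
    E S m (fun x => E S m (fun y => dist o (mid (x⁻¹ • o) (y⁻¹ • o)) ^ 2)) =
      E S m (fun x => E S m (fun y => dist o (mid (x • o) (y • o)) ^ 2)) := by
  have h1 : ∀ x : G, E S m (fun y => dist o (mid (x⁻¹ • o) (y⁻¹ • o)) ^ 2) =
      E S m (fun y => dist o (mid (x⁻¹ • o) (y • o)) ^ 2) := fun x =>
    E_inv S hS m (fun y => dist o (mid (x⁻¹ • o) (y • o)) ^ 2)
  simp only [h1]
  exact E_inv S hS m (fun x => E S m (fun y => dist o (mid (x • o) (y • o)) ^ 2))

/-- four independent elements -/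
private lemma four (hne : S.Nonempty) (m : ℕ) (I : G → ℝ) (M M' : G → G → ℝ) (r : ℝ)
    (h : 4 * E S m I + r * (6 * E S m (fun x => E S m (M x)) + 2 * E S m (fun x => E S m (M' x))) < 1) :
    ∃ a b c d : G, I a + (I b + (I c + I d)) + r * (M a b + (M a c + (M a d + (M b c + (M b d + (M c d +
      (M' a b + M' c d))))))) < 1 := by
  have h1 : E S m (fun a => E S m fun b => E S m fun c => E S m fun d =>
      1 + (-1) * (I a + (I b + (I c + I d)) + r * (M a b + (M a c + (M a d + (M b c + (M b d + (M c d +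
      (M' a b + M' c d))))))))) =
      1 - (4 * E S m I + r * (6 * E S m (fun x => E S m (M x)) + 2 * E S m (fun x => E S m (M' x)))) := by
    simp only [E_add, E_smul, E_const S hne]
    ring
  have h2 : 0 < E S m (fun a => E S m fun b => E S m fun c => E S m fun d =>
      1 + (-1) * (I a + (I b + (I c + I d)) + r * (M a b + (M a c + (M a d + (M b c + (M b d + (M c d +
      (M' a b + M' c d))))))))) := by
    rw [h1]
    linarith
  obtain ⟨a, ha⟩ := exists_pos_of_E S m h2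
  obtain ⟨b, hb⟩ := exists_pos_of_E S m ha
  obtain ⟨c, hc⟩ := exists_pos_of_E S m hb
  obtain ⟨d, hd⟩ := exists_pos_of_E S m hc
  exact ⟨a, b, c, d, by linarith⟩

private lemma le_of_term {κ m t R : ℝ} (hκ : 0 < κ) (hm : 0 < m) (hR : (1 / (κ * m) ^ 2) * t ^ 2 + R < 1)
    (hR0 : 0 ≤ R) (ht : 0 ≤ t) : t ≤ κ * m := by
  have h1 : (1 / (κ * m) ^ 2) * t ^ 2 < 1 := by linarith
  have h2 : 0 < κ * m := mul_pos hκ hm
  rw [one_div, inv_mul_lt_iff₀ (by positivity), mul_one] at h1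
  exact (abs_lt_of_sq_lt_sq' h1 h2.le).2.le |> fun h => h

end aux

/-- the midpoint after exchanging the arguments -/
private lemma mid_swap {G : Type u} {X : Type v} [Group G] [MetricSpace X] [MulAction G X] [CAT X]
    (hiso : ∀ (g : G) (x y : X), dist (g • x) (g • y) = dist x y) (o : X) (s a b : G) :
    dist o (mid (a • o) ((s * b) • o)) ≤ dist o (s⁻¹ • o) + dist o (mid (b • o) ((s⁻¹ * a) • o)) := by
  have h1 : IsMid (s • b • o) (s • (s⁻¹ * a) • o) (s • mid (b • o) ((s⁻¹ * a) • o)) :=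
    IsMid.map (f := fun x => s • x) (hiso s) (mid_spec _ _)
  rw [← mul_smul, ← mul_smul, mul_inv_cancel_left] at h1
  rw [← eq_mid h1.symm, ← hiso s⁻¹ o, inv_smul_smul, dist_comm o (s⁻¹ • o)]
  exact dist_triangle _ _ _

open Classical in
theorem select_shift {G : Type u} {X : Type v} [Group G] [MetricSpace X] [MulAction G X] [CAT X]
    (hiso : ∀ (g : G) (x y : X), dist (g • x) (g • y) = dist x y) (o : X)
    {S : Finset G} (h1 : 1 ∈ S) (hS : ∀ s ∈ S, s⁻¹ ∈ S) {c : ℝ} (hc : 0 < c)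
    (hsmall : Tendsto (fun m : ℕ => E S m (fun x => if dist o (x • o) < c * m then 1 else 0))
      atTop (𝓝 0)) {κ : ℝ} (hκ : 0 < κ) :
    ∃ (m : ℕ) (x : Fin 4 → G), 1 ≤ m ∧ (∀ s ∈ S, dist o (s • o) ≤ κ * m) ∧
      (∀ i, c * m ≤ dist o (x i • o)) ∧
      (∀ i j, i ≠ j → ∀ s ∈ S, dist o (mid (x i • o) ((s * x j) • o)) ≤ κ * m) ∧
      dist o (mid ((x 0)⁻¹ • o) ((x 1)⁻¹ • o)) ≤ κ * m ∧
      dist o (mid ((x 2)⁻¹ • o) ((x 3)⁻¹ • o)) ≤ κ * m := by
  have hne : S.Nonempty := ⟨1, h1⟩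
  have hq : (0 : ℝ) < S.card := by exact_mod_cast Finset.card_pos.2 hne
  have hq1 : (1 : ℝ) ≤ S.card := by exact_mod_cast Finset.card_pos.2 hne
  obtain ⟨κ', hκ'⟩ : ∃ κ' : ℝ, κ' = κ / 2 := ⟨_, rfl⟩
  have hκ'0 : 0 < κ' := by rw [hκ']; positivity
  obtain ⟨R, hR⟩ : ∃ R : ℝ, R = ∑ s ∈ S, dist o (s • o) := ⟨_, rfl⟩
  have hRs : ∀ s ∈ S, dist o (s • o) ≤ R := by
    intro s hs
    rw [hR]
    exact Finset.single_le_sum (f := fun s : G => dist o (s • o)) (fun _ _ => dist_nonneg) hs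
  have hpow : Tendsto (fun j : ℕ => 2 ^ j) atTop atTop :=
    tendsto_pow_atTop_atTop_of_one_lt one_lt_two
  have hI := hsmall.comp hpow
  have hev1 : ∀ᶠ j : ℕ in atTop, E S (2 ^ j) (fun x =>
      if dist o (x • o) < c * ((2 ^ j : ℕ) : ℝ) then (1 : ℝ) else 0) < 1 / 16 :=
    (hI.eventually (gt_mem_nhds (by norm_num : (0 : ℝ) < 1 / 16)))
  have hη : 0 < κ' ^ 2 / (16 * S.card) := by positivity
  have hev2 := shift_small hiso o h1 hS hη
  have hev3 : ∀ᶠ j : ℕ in atTop, R ≤ κ' * ((2 ^ j : ℕ) : ℝ) := by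
    have h2 : Tendsto (fun j : ℕ => κ' * ((2 ^ j : ℕ) : ℝ)) atTop atTop :=
      Tendsto.const_mul_atTop hκ'0 (tendsto_natCast_atTop_atTop.comp hpow)
    exact h2.eventually_ge_atTop R
  obtain ⟨j, hj1, hj2, hj3⟩ := (hev1.and (hev2.and hev3)).exists
  obtain ⟨m, hm⟩ : ∃ m : ℕ, m = 2 ^ j := ⟨_, rfl⟩
  rw [← hm] at hj1 hj2 hj3
  have hm1 : 1 ≤ m := by rw [hm]; exact Nat.one_le_two_pow
  have hmR : (0 : ℝ) < m := by exact_mod_cast hm1
  have hA' := mid_inv (X := X) o hS m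
  have hA1 := hj2 1 h1
  simp only [one_mul] at hA1
  rw [← hA'] at hA1
  have hM : E S m (fun x => E S m (fun y => ∑ s ∈ S, dist o (mid (x • o) ((s * y) • o)) ^ 2)) ≤
      S.card * (κ' ^ 2 / (16 * S.card) * (m : ℝ) ^ 2) := by
    have h2 : ∀ x : G, E S m (fun y => ∑ s ∈ S, dist o (mid (x • o) ((s * y) • o)) ^ 2) =
        ∑ s ∈ S, E S m (fun y => dist o (mid (x • o) ((s * y) • o)) ^ 2) := fun x =>
      E_sum S m S (fun s y => dist o (mid (x • o) ((s * y) • o)) ^ 2)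
    simp only [h2]
    rw [E_sum S m S (fun s x => E S m (fun y => dist o (mid (x • o) ((s * y) • o)) ^ 2))]
    refine (Finset.sum_le_sum hj2).trans (le_of_eq ?_)
    rw [Finset.sum_const, nsmul_eq_mul]
  have hfour := four hne m (fun x => if dist o (x • o) < c * (m : ℝ) then (1 : ℝ) else 0)
    (fun x y => ∑ s ∈ S, dist o (mid (x • o) ((s * y) • o)) ^ 2)
    (fun x y => dist o (mid (x⁻¹ • o) (y⁻¹ • o)) ^ 2)
    (1 / (κ' * m) ^ 2) (by
      have h2 : 1 / (κ' * m) ^ 2 * (6 * E S m (fun x => E S m (fun y =>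
            ∑ s ∈ S, dist o (mid (x • o) ((s * y) • o)) ^ 2)) +
          2 * E S m (fun x => E S m (fun y => dist o (mid (x⁻¹ • o) (y⁻¹ • o)) ^ 2))) ≤ 1 / 2 := by
        rw [one_div, inv_mul_le_iff₀ (by positivity)]
        have h3 : S.card * (κ' ^ 2 / (16 * S.card) * (m : ℝ) ^ 2) = κ' ^ 2 * m ^ 2 / 16 := by
          field_simp
        have h4 : κ' ^ 2 / (16 * S.card) * (m : ℝ) ^ 2 ≤ κ' ^ 2 * m ^ 2 / 16 := by
          rw [← h3]
          exact le_mul_of_one_le_left (by positivity) hq1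
        rw [h3] at hM
        have h5 : (κ' * m) ^ 2 * (1 / 2) = 8 * (κ' ^ 2 * m ^ 2 / 16) := by ring
        rw [h5]
        linarith
      linarith)
  obtain ⟨x0, x1, x2, x3, hx⟩ := hfour
  have hr0 : (0 : ℝ) ≤ 1 / (κ' * m) ^ 2 := by positivity
  obtain ⟨r, hr⟩ : ∃ r : ℝ, r = 1 / (κ' * m) ^ 2 := ⟨_, rfl⟩
  obtain ⟨I, hIdef⟩ : ∃ I : G → ℝ, I = fun x => if dist o (x • o) < c * (m : ℝ) then (1 : ℝ) else 0 :=
    ⟨_, rfl⟩
  obtain ⟨M, hMdef⟩ : ∃ M : G → G → ℝ, M = fun x y => ∑ s ∈ S, dist o (mid (x • o) ((s * y) • o)) ^ 2 :=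
    ⟨_, rfl⟩
  have hI0 : ∀ x, 0 ≤ I x := by
    intro x
    rw [hIdef]
    beta_reduce
    split_ifs <;> norm_num
  have hI1 : ∀ x, I x < 1 → c * m ≤ dist o (x • o) := by
    intro x hx
    by_contra hcon
    rw [hIdef] at hx
    beta_reduce at hx
    rw [if_pos (not_le.mp hcon)] at hx
    exact lt_irrefl _ hx
  have hterm : ∀ t : ℝ, 0 ≤ t → r * t ^ 2 < 1 → t ≤ κ' * m := by
    intro t ht h2
    refine le_of_term hκ'0 hmR (R := 0) ?_ le_rfl ht
    rw [add_zero, ← hr]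
    exact h2
  rw [← hr] at hr0
  have hMterm : ∀ x y : G, r * M x y < 1 → ∀ s ∈ S, dist o (mid (x • o) ((s * y) • o)) ≤ κ' * m := by
    intro x y h2 s hs
    refine hterm _ dist_nonneg (lt_of_le_of_lt ?_ h2)
    refine mul_le_mul_of_nonneg_left ?_ hr0
    rw [hMdef]
    exact Finset.single_le_sum (f := fun s : G => dist o (mid (x • o) ((s * y) • o)) ^ 2)
      (fun _ _ => sq_nonneg _) hs
  have hM0 : ∀ x y : G, 0 ≤ r * M x y := by
    intro x y
    refine mul_nonneg hr0 ?_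
    rw [hMdef]
    exact Finset.sum_nonneg fun _ _ => sq_nonneg _
  have hx' : I x0 + (I x1 + (I x2 + I x3)) + r * (M x0 x1 +
      (M x0 x2 + (M x0 x3 + (M x1 x2 + (M x1 x3 +
      (M x2 x3 + (dist o (mid (x0⁻¹ • o) (x1⁻¹ • o)) ^ 2 +
      dist o (mid (x2⁻¹ • o) (x3⁻¹ • o)) ^ 2))))))) < 1 := by
    rw [hIdef, hr, hMdef]
    exact hx
  have n0 := hI0 x0
  have n1 := hI0 x1
  have n2 := hI0 x2
  have n3 := hI0 x3
  have p1 := hM0 x0 x1
  have p2 := hM0 x0 x2
  have p3 := hM0 x0 x3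
  have p4 := hM0 x1 x2
  have p5 := hM0 x1 x3
  have p6 := hM0 x2 x3
  have p7 := mul_nonneg hr0 (sq_nonneg (dist o (mid (x0⁻¹ • o) (x1⁻¹ • o))))
  have p8 := mul_nonneg hr0 (sq_nonneg (dist o (mid (x2⁻¹ • o) (x3⁻¹ • o))))
  simp only [mul_add] at hx'
  have q1 := hMterm x0 x1 (by linarith)
  have q2 := hMterm x0 x2 (by linarith)
  have q3 := hMterm x0 x3 (by linarith)
  have q4 := hMterm x1 x2 (by linarith)
  have q5 := hMterm x1 x3 (by linarith)
  have q6 := hMterm x2 x3 (by linarith)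
  have q7 := hterm _ dist_nonneg (by linarith : r * dist o (mid (x0⁻¹ • o) (x1⁻¹ • o)) ^ 2 < 1)
  have q8 := hterm _ dist_nonneg (by linarith : r * dist o (mid (x2⁻¹ • o) (x3⁻¹ • o)) ^ 2 < 1)
  have i0 := hI1 x0 (by linarith)
  have i1 := hI1 x1 (by linarith)
  have i2 := hI1 x2 (by linarith)
  have i3 := hI1 x3 (by linarith)
  have hκm : κ' * m ≤ κ * m := by
    rw [hκ']
    have : 0 < κ * m := mul_pos hκ hmR
    linarith
  have hκm2 : κ' * m + κ' * m = κ * m := by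
    rw [hκ']
    ring
  have hup : ∀ a b : G, (∀ s ∈ S, dist o (mid (a • o) ((s * b) • o)) ≤ κ' * m) →
      ∀ s ∈ S, dist o (mid (a • o) ((s * b) • o)) ≤ κ * m := fun a b h s hs => (h s hs).trans hκm
  have hdown : ∀ a b : G, (∀ s ∈ S, dist o (mid (b • o) ((s * a) • o)) ≤ κ' * m) →
      ∀ s ∈ S, dist o (mid (a • o) ((s * b) • o)) ≤ κ * m := by
    intro a b h s hs
    have h2 := mid_swap hiso o s a b
    have h3 := h s⁻¹ (hS s hs)
    have h4 := hRs s⁻¹ (hS s hs)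
    linarith
  refine ⟨m, ![x0, x1, x2, x3], hm1, ?_, ?_, ?_, q7.trans hκm, q8.trans hκm⟩
  · intro s hs
    exact ((hRs s hs).trans hj3).trans hκm
  · intro i
    fin_cases i
    · exact i0
    · exact i1
    · exact i2
    · exact i3
  · intro i j hij
    fin_cases i <;> fin_cases j
    · exact absurd rfl hij
    · exact hup _ _ q1
    · exact hup _ _ q2
    · exact hup _ _ q3
    · exact hdown _ _ q1
    · exact absurd rfl hij
    · exact hup _ _ q4
    · exact hup _ _ q5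
    · exact hdown _ _ q2
    · exact hdown _ _ q4
    · exact absurd rfl hij
    · exact hup _ _ q6
    · exact hdown _ _ q3
    · exact hdown _ _ q5
    · exact hdown _ _ q6
    · exact absurd rfl hij

end TitsLF
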