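import Pool.Agent.Helper35.TG.GapSup
import Pool.Agent.Helper35.TG.SelectS
import Pool.Agent.Helper35.TG.PairChain
import Pool.Agent.Helper35.TG.Expand
import Pool.Agent.Helper35.TT.Decay

/-!
TG-06 GirthMain. Finitely generated groups which are not amenable and act isometrically on a CAT(0) space with finite, at most exponentially growing orbit balls have
infinite girth.

PROOF. `G = closure T`, `T` finite (`Group.FG`); enumerate `T` by `t : Fin n → G` (`T.equivFin` or `Finset.equivFin`), so `closure (range t) = ⊤`. `gap_sup hR T` gives `S ⊇ T`; `small_dist` gives `c₀`. Let `k` be given; `K` from `expand k n`. `select_shift` with `κ = c₀/(4 K + 2)` gives `m ≥ 1`, `x`;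
put `c = c₀ m`, `δ = κ m`: `(4 K + 1) δ < c`.
`T₀ : Fin 2 ⊕ Fin n → G`, `inl 0 ↦ x 0 (x 1)⁻¹`, `inl 1 ↦ x 2 (x 3)⁻¹`, `inr i ↦ t i`; `φ = (FreeGroup.lift T₀).comp (FreeGroup.lift (bw k))`. For `w ≠ 1` of length `≤ k`, `W = w.toWord` is reduced and nonempty (`FreeGroup.isReduced_toWord`, `FreeGroup.toWord_eq_nil_iff`, `FreeGroup.mk_toWord`);
`expand` gives `P`; `φ w = (P.map (fun p => T₀(sval p.1) * T₀(lval p.2))).prod` and `T₀ (sval p.1) ∈ S` (`1`, `t i`, `(t i)⁻¹`), `T₀ (lval p.2) = ltr x p.2` (check the four letters). `pairs_ne` for the list `P.map (fun p => (T₀(sval p.1), p.2))`: `φ w ≠ 1`.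
Surjective: the range of `φ` contains `u = φ (of (inl 0))`, `v = φ (of (inl 1))` and `u^L t_i v^L`, so all `t_i`, so everything.
Finally `r = 2 + n`, `f = φ.comp (FreeGroup.map finSumFinEquiv.symm)` (`FreeGroup.freeGroupCongr`); the length of the reduced word does not change under an injective renaming (`FreeGroup.toWord_map`-like, or: `FreeGroup.map` of `mk L` is `mk (L.map ..)` and an injective renaming of a reduced list is reduced: `FreeGroup.IsReduced`).
-/

set_option autoImplicit false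

namespace TitsLF

universe u v

private theorem toWord_congr_length {α β : Type*} [DecidableEq α] [DecidableEq β] (e : α ≃ β)
    (w : FreeGroup α) : (FreeGroup.freeGroupCongr e w).toWord.length = w.toWord.length := by
  have h1 : FreeGroup.freeGroupCongr e w =
      FreeGroup.mk (w.toWord.map (fun p => (e p.1, p.2))) := by
    conv_lhs => rw [← FreeGroup.mk_toWord (x := w)]
    rfl
  have h2 : FreeGroup.IsReduced (w.toWord.map (fun p => (e p.1, p.2))) := by
    have h3 := FreeGroup.isReduced_toWord (x := w)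
    rw [FreeGroup.IsReduced] at h3 ⊢
    rw [List.isChain_map]
    refine h3.imp ?_
    intro a b hab h
    exact hab (e.injective h)
  rw [h1, FreeGroup.toWord_mk, h2.reduce_eq, List.length_map]

theorem infGirth_of_not_reiter {G : Type u} {X : Type v} [Group G] [MetricSpace X]
    [MulAction G X] [CAT X] [Group.FG G]
    (hiso : ∀ (g : G) (x y : X), dist (g • x) (g • y) = dist x y) (o : X)
    (hfin : ∀ R : ℝ, {g : G | dist (g • o) o ≤ R}.Finite)
    (hg : ∃ C V : ℝ, 0 < C ∧ 0 < V ∧ ∀ R : ℝ, 0 ≤ R → ∀ T : Finset G,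
      (∀ g ∈ T, dist (g • o) o ≤ R) → (T.card : ℝ) ≤ C * Real.exp (V * R))
    (hR : ¬ Reiter G) : InfGirth G := by
  classical
  obtain ⟨T, hT⟩ := (Group.FG.out : (⊤ : Subgroup G).FG)
  set n := T.card with hn
  set t : Fin n → G := fun i => ((T.equivFin.symm i : T) : G) with ht
  have htT : ∀ i, t i ∈ T := fun i => (T.equivFin.symm i).2
  have htr : Set.range t = (T : Set G) := by
    ext g
    constructor
    · rintro ⟨i, rfl⟩
      exact htT i
    · intro hg
      exact ⟨T.equivFin ⟨g, hg⟩, by simp [ht]⟩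
  obtain ⟨S, hTS, h1, hS, ρ, hρ, hρ1, hgap⟩ := gap_sup hR T
  obtain ⟨c₀, hc₀, hsmall⟩ := small_dist o hfin hg hρ hρ1 hgap
  refine ⟨2 + n, by omega, fun k => ?_⟩
  obtain ⟨K, hK⟩ := expand k n
  have hκ : 0 < c₀ / (4 * (K : ℝ) + 2) := by positivity
  obtain ⟨m, x, hm, ha, hb, hc, hd, he⟩ := select_shift hiso o h1 hS hc₀ hsmall hκ
  have hm' : (0 : ℝ) < m := by exact_mod_cast hm
  set T₀ : Fin 2 ⊕ Fin n → G := Sum.elim ![x 0 * (x 1)⁻¹, x 2 * (x 3)⁻¹] t with hT₀
  set L : FreeGroup (Fin 2 ⊕ Fin n) →* G := FreeGroup.lift T₀ with hL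
  set φ : FreeGroup (Fin 2 ⊕ Fin n) →* G := L.comp (FreeGroup.lift (bw k)) with hφ
  have hsv : ∀ p : Option (Fin n × Bool), L (sval p) ∈ S := by
    intro p
    rcases p with _ | ⟨i, b⟩
    · simpa [sval] using h1
    · cases b
      · simpa [sval, hL, hT₀] using hS _ (hTS (htT i))
      · simpa [sval, hL, hT₀] using hTS (htT i)
  have hlv : ∀ p : Fin 2 × Bool, L (lval p) = ltr x p := by
    rintro ⟨p, b⟩
    fin_cases p <;> cases b <;> simp [lval, ltr, hL, hT₀]
  have hne : ∀ w : FreeGroup (Fin 2 ⊕ Fin n), w ≠ 1 → w.toWord.length ≤ k → φ w ≠ 1 := by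
    intro w hw hwk
    obtain ⟨P, hP, hPK, hch, hval⟩ := hK w.toWord FreeGroup.isReduced_toWord
      (fun h => hw (FreeGroup.toWord_eq_nil_iff.1 h)) hwk
    have h3 : φ w = ((P.map (fun p => (L (sval p.1), p.2))).map (fun p => p.1 * ltr x p.2)).prod := by
      rw [hφ, MonoidHom.comp_apply]
      rw [FreeGroup.mk_toWord] at hval
      rw [hval, map_list_prod, List.map_map, List.map_map]
      congr 1
      refine List.map_congr_left fun p _ => ?_
      simp only [Function.comp_apply, map_mul, hlv]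
    rw [h3]
    refine pairs_ne hiso o hS x K (c := c₀ * m) (δ := c₀ / (4 * (K : ℝ) + 2) * m) (by positivity)
      ?_ ha hb hc hd he _ (by simpa using hP) (by simpa using hPK) ?_ ?_
    · rw [← mul_assoc]
      refine mul_lt_mul_of_pos_right ?_ hm'
      rw [← mul_div_assoc, div_lt_iff₀ (by positivity)]
      nlinarith
    · intro p hp
      obtain ⟨q, -, rfl⟩ := List.mem_map.1 hp
      exact hsv q.1
    · rw [List.isChain_map]
      exact hch
  have hu : φ (FreeGroup.of (Sum.inl 0)) = x 0 * (x 1)⁻¹ := by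
    simp [hφ, hL, hT₀, bw]
  have hv : φ (FreeGroup.of (Sum.inl 1)) = x 2 * (x 3)⁻¹ := by
    simp [hφ, hL, hT₀, bw]
  have hi : ∀ i : Fin n, φ (FreeGroup.of (Sum.inr i)) =
      (x 0 * (x 1)⁻¹) ^ ((k + 1) * ((i : ℕ) + 1)) * t i * (x 2 * (x 3)⁻¹) ^ ((k + 1) * ((i : ℕ) + 1)) := by
    intro i
    simp [hφ, hL, hT₀, bw]
  have hsurj : Function.Surjective φ := by
    rw [← MonoidHom.range_eq_top, eq_top_iff, ← hT, Subgroup.closure_le, ← htr]
    rintro _ ⟨i, rfl⟩
    have h4 : t i = (φ (FreeGroup.of (Sum.inl 0)) ^ ((k + 1) * ((i : ℕ) + 1)))⁻¹ *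
        φ (FreeGroup.of (Sum.inr i)) * (φ (FreeGroup.of (Sum.inl 1)) ^ ((k + 1) * ((i : ℕ) + 1)))⁻¹ := by
      rw [hi, hu, hv]
      group
    have h5 : ∀ y, φ y ∈ φ.range := fun y => ⟨y, rfl⟩
    rw [SetLike.mem_coe, h4]
    exact mul_mem (mul_mem (inv_mem (pow_mem (h5 _) _)) (h5 _)) (inv_mem (pow_mem (h5 _) _))
  refine ⟨φ.comp (FreeGroup.freeGroupCongr finSumFinEquiv.symm).toMonoidHom, ?_, fun w hw hwk => ?_⟩
  · exact hsurj.comp (FreeGroup.freeGroupCongr finSumFinEquiv.symm).surjective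
  · refine hne _ ?_ ?_
    · intro h
      exact hw ((FreeGroup.freeGroupCongr finSumFinEquiv.symm).injective (by simpa using h))
    · exact (toWord_congr_length _ w).trans_le hwk

end TitsLF
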