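import Pool.Agent.Helper35.TT.Walk
import Pool.Agent.Helper35.TT.Mid

/-!
TG-02 Shift. Second moments with an inserted letter.

PROOF. Notation: `d = dist`, `r = ∑ s ∈ S, d o (s • o)` (so `d o (s • o) ≤ r` for `s ∈ S`), `b m = E S m (fun x => d o (x • o)^2)`, `q = S.card ≥ 1`, `β j = b (2^j) / 4^j`, `m = 2^j`, so `b m = m^2 β j`, `b (2m) = 4 m^2 β (j+1)`. As in `TT/Select.lean`: `b (2m) ≤ 4 b m`, `β` is antitone
(`E_conv`, `(a+b)^2 ≤ 2a^2+2b^2`), so `β j - β (j+1) → 0` and `b m ≤ b 1 * m^2`, `b (2m) ≤ 4 b 1 m^2`. Write `EE F = E S m (fun x => E S m (fun y => F x y))`, `D s = EE (d o ((x * s * y) • o)^2)` for `s ∈ S`.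
1. Upper bound: `d o (x s y o) ≤ d o (x o) + r + d o (y o)` and `(a + b + r)^2 ≤ (1 + 1/m)(2 a^2 + 2 b^2) + (1 + m) r^2`: `D s ≤ 4 b m (1 + 1/m) + (1 + m) r^2 ≤ 4 b m + 4 b 1 m + (1 + m) r^2 =: U`.
2. `∑_{s ∈ S} D s = q * b (m + (1 + m))` (`E_conv` twice: `E S (m + (1 + m)) F = E S m (fun x => E S 1 (fun s => E S m (fun y => F (x * (s * y)))))`, `E S 1 F = (∑ s ∈ S, F (1 * s)) / q`).
3. `b (2m + 1) = (∑_{s ∈ S} E S (2m) (fun z => d o ((z s) • o)^2)) / q` and `d o (z s o)^2 ≥ (1 - 1/m) d o (z o)^2 - m r^2` (from `d o (z s o) ≥ d o (z o) - r` if the right side is `≥ 0`, `2 r t ≤ t^2/m + m r^2`; the inequality is also true if `d o (z o) < r`, `m ≥ 1`):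
   `b (2m+1) ≥ (1 - 1/m) b (2m) - m r^2 ≥ b (2m) - 4 b 1 m - m r^2`.
4. All terms `U - D s` are `≥ 0`, so for each `s ∈ S`: `U - D s ≤ ∑_{s'} (U - D s') = q (U - b (2m+1)) ≤ q (4 b m - b (2m) + 8 b 1 m + (1 + 2m) r^2)`.
5. CN: `d o (mid (x o) (s y o))^2 ≤ d o (x o)^2/2 + d o (s y o)^2/2 - d (x o) (s y o)^2/4`. `EE (d (x o) (s y o)^2) = EE (d o (x⁻¹ s y o)^2) = D s` (`E_inv` for `x`). `E (d o (s y o)^2) ≤ (1 + 1/m) b m + (1 + m) r^2 ≤ b m + b 1 m + (1 + m) r^2`. So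
   `EE (d o (mid ..)^2) ≤ b m + (b 1 m + (1+m) r^2)/2 - D s/4 ≤ (q/4)(4 b m - b (2m)) + O(m) = q m^2 (β j - β (j+1)) + C m` with a constant `C` depending on `q, b 1, r` only (use `D s ≥ U - q(...)`, `U ≥ 4 b m`). Divide by `m^2`: it tends to `0`, so it is eventually `≤ η m^2`, for all `s ∈ S` at once.
-/

set_option autoImplicit false

namespace TitsLF

open Filter Topology

universe u v

private lemma young_sh {t w r m : ℝ} (hm : 0 < m) (ht : 0 ≤ t) (h : t ≤ w + r) :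
    t ^ 2 ≤ (1 + m⁻¹) * w ^ 2 + (1 + m) * r ^ 2 := by
  have h1 : t ^ 2 ≤ (w + r) ^ 2 := pow_le_pow_left₀ ht h 2
  have h2 : m⁻¹ * (w - m * r) ^ 2 = m⁻¹ * w ^ 2 - 2 * w * r + m * r ^ 2 := by
    field_simp
    ring
  have h3 : 0 ≤ m⁻¹ * (w - m * r) ^ 2 := by positivity
  rw [h2] at h3
  nlinarith

section aux

variable {G : Type u} {X : Type v} [Group G] [MetricSpace X] [MulAction G X]

private lemma conv_sh (hiso : ∀ (g : G) (x y : X), dist (g • x) (g • y) = dist x y) (o : X)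
    {S : Finset G} (hne : S.Nonempty) (m : ℕ) :
    E S (m + m) (fun x => dist o (x • o) ^ 2) ≤ 4 * E S m (fun x => dist o (x • o) ^ 2) := by
  rw [E_conv]
  have h1 : E S m (fun x => E S m (fun y => dist o ((x * y) • o) ^ 2)) ≤
      E S m (fun x => E S m (fun y => 2 * dist o (x • o) ^ 2 + 2 * dist o (y • o) ^ 2)) := by
    refine E_mono S m fun x => E_mono S m fun y => ?_
    have h2 : dist o ((x * y) • o) ≤ dist o (x • o) + dist o (y • o) := by
      have h3 := dist_triangle o (x • o) ((x * y) • o)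
      rw [mul_smul, hiso] at h3
      rw [mul_smul]
      exact h3
    have h4 : dist o ((x * y) • o) ^ 2 ≤ (dist o (x • o) + dist o (y • o)) ^ 2 :=
      pow_le_pow_left₀ dist_nonneg h2 2
    nlinarith [sq_nonneg (dist o (x • o) - dist o (y • o))]
  refine h1.trans (le_of_eq ?_)
  simp only [E_add, E_smul, E_const S hne]
  ring

/-- the sum over the inserted letter -/
private lemma sum_sh {S : Finset G} (hne : S.Nonempty) (m : ℕ) (F : G → ℝ) :
    ∑ s ∈ S, E S m (fun x => E S m (fun y => F (x * s * y))) = (S.card : ℝ) * E S (m + m + 1) F := by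
  have hc : (S.card : ℝ) ≠ 0 := Nat.cast_ne_zero.2 (Finset.card_pos.2 hne).ne'
  have e1 : m + m + 1 = m + (1 + m) := by omega
  have h1 : ∀ x : G, E S (1 + m) (fun z => F (x * z)) =
      (S.card : ℝ)⁻¹ * ∑ s ∈ S, E S m (fun y => F (x * s * y)) := by
    intro x
    rw [E_conv]
    change (∑ s ∈ S, E S m (fun y => F (x * (1 * s * y)))) / (S.card : ℝ) = _
    rw [div_eq_inv_mul]
    simp only [one_mul, mul_assoc]
  rw [e1, E_conv]
  simp only [h1]
  rw [E_smul, ← mul_assoc, mul_inv_cancel₀ hc, one_mul]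
  exact (E_sum S m S (fun s x => E S m (fun y => F (x * s * y)))).symm

end aux

theorem shift_small {G : Type u} {X : Type v} [Group G] [MetricSpace X] [MulAction G X] [CAT X]
    (hiso : ∀ (g : G) (x y : X), dist (g • x) (g • y) = dist x y) (o : X)
    {S : Finset G} (h1 : 1 ∈ S) (hS : ∀ s ∈ S, s⁻¹ ∈ S) {η : ℝ} (hη : 0 < η) :
    ∀ᶠ j : ℕ in atTop, ∀ s ∈ S,
      E S (2 ^ j) (fun x => E S (2 ^ j) (fun y => dist o (mid (x • o) ((s * y) • o)) ^ 2)) ≤
        η * ((2 ^ j : ℕ) : ℝ) ^ 2 := by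
  have hne : S.Nonempty := ⟨1, h1⟩
  obtain ⟨F, hF⟩ : ∃ F : G → ℝ, F = fun x => dist o (x • o) ^ 2 := ⟨_, rfl⟩
  obtain ⟨b, hb⟩ : ∃ b : ℕ → ℝ, b = fun m => E S m F := ⟨_, rfl⟩
  have hb0 : ∀ m, 0 ≤ b m := fun m => by
    rw [hb, hF]; exact E_nonneg S m fun x => sq_nonneg _
  have hb2 : ∀ m, b (m + m) ≤ 4 * b m := fun m => by
    rw [hb, hF]; exact conv_sh hiso o hne m
  obtain ⟨β, hβ⟩ : ∃ β : ℕ → ℝ, β = fun j => b (2 ^ j) / 4 ^ j := ⟨_, rfl⟩
  have hanti : Antitone β := by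
    refine antitone_nat_of_succ_le fun j => ?_
    rw [hβ]
    beta_reduce
    have h2 : b (2 ^ (j + 1)) ≤ 4 * b (2 ^ j) := by
      have h3 := hb2 (2 ^ j)
      rwa [← two_mul, ← pow_succ'] at h3
    rw [pow_succ (4 : ℝ) j, div_le_div_iff₀ (by positivity) (by positivity)]
    have h4 : (0 : ℝ) < 4 ^ j := by positivity
    nlinarith
  have hbdd : BddBelow (Set.range β) := by
    refine ⟨0, ?_⟩
    rintro _ ⟨j, rfl⟩
    rw [hβ]
    exact div_nonneg (hb0 _) (by positivity)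
  have hlim := tendsto_atTop_ciInf hanti hbdd
  have hdiff : Tendsto (fun j => β j - β (j + 1)) atTop (𝓝 0) := by
    have h2 := hlim.sub (hlim.comp (tendsto_add_atTop_nat 1))
    rw [sub_self] at h2
    exact h2
  have hpow : Tendsto (fun j : ℕ => ((2 ^ j : ℕ) : ℝ)) atTop atTop :=
    tendsto_natCast_atTop_atTop.comp (tendsto_pow_atTop_atTop_of_one_lt one_lt_two)
  obtain ⟨q, hq⟩ : ∃ q : ℝ, q = S.card := ⟨_, rfl⟩
  have hq1 : 1 ≤ q := by
    rw [hq]
    exact_mod_cast Finset.card_pos.2 hne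
  obtain ⟨r, hr⟩ : ∃ r : ℝ, r = ∑ s ∈ S, dist o (s • o) := ⟨_, rfl⟩
  have hrs : ∀ s ∈ S, dist o (s • o) ≤ r := by
    intro s hs
    rw [hr]
    exact Finset.single_le_sum (f := fun s => dist o (s • o)) (fun _ _ => dist_nonneg) hs
  have hr0 : 0 ≤ r := le_trans dist_nonneg (hrs 1 h1)
  obtain ⟨C, hC⟩ : ∃ C : ℝ, C = (b 1 + 2 * r ^ 2) / 2 + q * (12 * b 1 + 6 * r ^ 2) / 4 := ⟨_, rfl⟩
  have hev1 : ∀ᶠ j : ℕ in atTop, β j - β (j + 1) < η / (2 * q) :=
    hdiff.eventually (gt_mem_nhds (by positivity))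
  have hev2 : ∀ᶠ j : ℕ in atTop, 2 * C / η ≤ ((2 ^ j : ℕ) : ℝ) := hpow.eventually_ge_atTop _
  filter_upwards [hev1, hev2] with j hj1 hj2 s hs
  obtain ⟨m, hm⟩ : ∃ m : ℕ, m = 2 ^ j := ⟨_, rfl⟩
  rw [← hm] at hj2 ⊢
  have hm1 : 1 ≤ m := by rw [hm]; exact Nat.one_le_two_pow
  have hm1R : (1 : ℝ) ≤ m := by exact_mod_cast hm1
  have hmR : (0 : ℝ) < m := by linarith
  have hm4 : (m : ℝ) ^ 2 = 4 ^ j := by
    rw [hm]
    push_cast
    rw [← pow_mul, mul_comm j 2, pow_mul]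
    norm_num
  have hbm : b m = (m : ℝ) ^ 2 * β j := by
    rw [hβ, hm4, hm]
    field_simp
  have hb2m : b (m + m) = 4 * ((m : ℝ) ^ 2 * β (j + 1)) := by
    have h4 : m + m = 2 ^ (j + 1) := by rw [hm, pow_succ]; ring
    rw [h4, hβ, hm4]
    beta_reduce
    rw [pow_succ (4 : ℝ) j]
    field_simp
  have hbm1 : b m ≤ b 1 * (m : ℝ) ^ 2 := by
    have h2 : β j ≤ β 0 := hanti (Nat.zero_le j)
    have h3 : β 0 = b 1 := by
      rw [hβ]
      simp
    rw [hbm, mul_comm]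
    rw [h3] at h2
    exact mul_le_mul_of_nonneg_right h2 (by positivity)
  have hbmm : (m : ℝ)⁻¹ * b m ≤ b 1 * m := by
    rw [inv_mul_le_iff₀ hmR]
    calc b m ≤ b 1 * (m : ℝ) ^ 2 := hbm1
      _ = m * (b 1 * m) := by ring
  obtain ⟨D, hD⟩ : ∃ D : G → ℝ, D = fun s => E S m (fun x => E S m (fun y => F (x * s * y))) :=
    ⟨_, rfl⟩
  obtain ⟨U, hU⟩ : ∃ U : ℝ, U = 4 * b m + 4 * b 1 * m + (1 + m) * r ^ 2 := ⟨_, rfl⟩
  have hb1 := hb0 1
  have hr2 : 0 ≤ r ^ 2 := sq_nonneg r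
  -- upper bound
  have hDU : ∀ s ∈ S, D s ≤ U := by
    intro s hs
    rw [hD]
    beta_reduce
    have h2 : E S m (fun x => E S m (fun y => F (x * s * y))) ≤
        E S m (fun x => E S m (fun y => (1 + (m : ℝ)⁻¹) * (2 * F x + 2 * F y) +
          (1 + (m : ℝ)) * r ^ 2)) := by
      refine E_mono S m fun x => E_mono S m fun y => ?_
      rw [hF]
      beta_reduce
      have h3 : dist o ((x * s * y) • o) ≤ (dist o (x • o) + dist o (y • o)) + r := by
        have t1 := dist_triangle o (x • o) ((x * s * y) • o)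
        have t2 := dist_triangle (x • o) ((x * s) • o) ((x * s * y) • o)
        rw [mul_smul (x * s) y o, hiso] at t2
        rw [mul_smul x s o, hiso] at t2
        rw [mul_smul (x * s) y o] at t1 ⊢
        have t3 := hrs s hs
        have t4 : dist (x • o) ((x * s) • y • o) ≤ dist o (s • o) + dist o (y • o) := by
          exact t2
        linarith
      have h4 := young_sh hmR dist_nonneg h3
      refine h4.trans ?_
      have h5 : (dist o (x • o) + dist o (y • o)) ^ 2 ≤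
          2 * dist o (x • o) ^ 2 + 2 * dist o (y • o) ^ 2 := by
        nlinarith [sq_nonneg (dist o (x • o) - dist o (y • o))]
      have h6 : 0 ≤ 1 + (m : ℝ)⁻¹ := by positivity
      have h7 := mul_le_mul_of_nonneg_left h5 h6
      linarith
    refine h2.trans ?_
    have h3 : E S m (fun x => E S m (fun y => (1 + (m : ℝ)⁻¹) * (2 * F x + 2 * F y) +
          (1 + (m : ℝ)) * r ^ 2)) = (1 + (m : ℝ)⁻¹) * (4 * b m) + (1 + (m : ℝ)) * r ^ 2 := by
      simp only [E_add, E_smul, E_const S hne]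
      rw [hb]
      ring
    rw [h3, hU]
    nlinarith
  -- the sum
  have hsum : ∑ s ∈ S, D s = q * b (m + m + 1) := by
    rw [hD, hq, hb]
    exact sum_sh hne m F
  have hbU : b (m + m + 1) ≤ U := by
    have h2 : ∑ s ∈ S, D s ≤ ∑ _s ∈ S, U := Finset.sum_le_sum hDU
    rw [hsum, Finset.sum_const, nsmul_eq_mul, ← hq] at h2
    exact le_of_mul_le_mul_left h2 (by linarith)
  -- lower bound
  have hlow : b (m + m) ≤ (1 + (m : ℝ)⁻¹) * b (m + m + 1) + (1 + (m : ℝ)) * r ^ 2 := by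
    have h2 : b (m + m + 1) = (∑ s ∈ S, E S (m + m) (fun x => F (x * s))) / (S.card : ℝ) := by
      rw [hb]
      rfl
    have h3 : ∀ s ∈ S, b (m + m) ≤ (1 + (m : ℝ)⁻¹) * E S (m + m) (fun x => F (x * s)) +
        (1 + (m : ℝ)) * r ^ 2 := by
      intro s hs
      rw [hb]
      beta_reduce
      have h4 : E S (m + m) F ≤ E S (m + m) (fun x => (1 + (m : ℝ)⁻¹) * F (x * s) +
          (1 + (m : ℝ)) * r ^ 2) := by
        refine E_mono S _ fun x => ?_
        rw [hF]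
        beta_reduce
        refine young_sh hmR dist_nonneg ?_
        have t1 := dist_triangle o ((x * s) • o) (x • o)
        rw [mul_smul, hiso, dist_comm (s • o) o] at t1
        rw [mul_smul]
        have t3 := hrs s hs
        linarith
      refine h4.trans (le_of_eq ?_)
      simp only [E_add, E_smul, E_const S hne]
    have h5 := Finset.sum_le_sum h3
    rw [Finset.sum_const, nsmul_eq_mul, Finset.sum_add_distrib, ← Finset.mul_sum,
      Finset.sum_const, nsmul_eq_mul, ← hq] at h5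
    have h6 : ∑ s ∈ S, E S (m + m) (fun x => F (x * s)) = q * b (m + m + 1) := by
      rw [h2, ← hq]
      field_simp
    rw [h6] at h5
    have h7 : q * b (m + m) ≤ q * ((1 + (m : ℝ)⁻¹) * b (m + m + 1) + (1 + (m : ℝ)) * r ^ 2) := by
      nlinarith
    exact le_of_mul_le_mul_left h7 (by linarith)
  have hUm : (m : ℝ)⁻¹ * U ≤ 8 * b 1 * m + 2 * r ^ 2 := by
    have h2 : (m : ℝ)⁻¹ * U = 4 * ((m : ℝ)⁻¹ * b m) + 4 * b 1 + ((m : ℝ)⁻¹ + 1) * r ^ 2 := by
      rw [hU]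
      field_simp
    have h3 : (m : ℝ)⁻¹ ≤ 1 := inv_le_one_of_one_le₀ hm1R
    have h4 : ((m : ℝ)⁻¹ + 1) * r ^ 2 ≤ 2 * r ^ 2 :=
      mul_le_mul_of_nonneg_right (by linarith) hr2
    have h5 : b 1 ≤ b 1 * m := by nlinarith
    rw [h2]
    linarith
  have hlow2 : b (m + m) - (8 * b 1 + 4 * r ^ 2) * m ≤ b (m + m + 1) := by
    have h2 : (m : ℝ)⁻¹ * b (m + m + 1) ≤ (m : ℝ)⁻¹ * U :=
      mul_le_mul_of_nonneg_left hbU (by positivity)
    have h3 : r ^ 2 ≤ r ^ 2 * m := by nlinarith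
    nlinarith
  -- each term
  have hDs : U - q * ((4 * b m - b (m + m)) + (12 * b 1 + 6 * r ^ 2) * m) ≤ D s := by
    have h2 : U - D s ≤ ∑ s' ∈ S, (U - D s') :=
      Finset.single_le_sum (f := fun s' => U - D s') (fun s' hs' => sub_nonneg.2 (hDU s' hs')) hs
    rw [Finset.sum_sub_distrib, Finset.sum_const, nsmul_eq_mul, ← hq, hsum] at h2
    have h3 : U - b (m + m + 1) ≤ (4 * b m - b (m + m)) + (12 * b 1 + 6 * r ^ 2) * m := by
      have h4 : r ^ 2 ≤ r ^ 2 * m := by nlinarith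
      rw [hU]
      nlinarith
    have h5 : q * (U - b (m + m + 1)) ≤ q * ((4 * b m - b (m + m)) + (12 * b 1 + 6 * r ^ 2) * m) :=
      mul_le_mul_of_nonneg_left h3 (by linarith)
    linarith
  -- midpoints
  have hmid : E S m (fun x => E S m (fun y => dist o (mid (x • o) ((s * y) • o)) ^ 2)) ≤
      b m + (b 1 + 2 * r ^ 2) * m / 2 - D s / 4 := by
    have h2 : E S m (fun x => E S m (fun y => dist o (mid (x • o) ((s * y) • o)) ^ 2)) ≤
        E S m (fun x => E S m (fun y => (1 / 2) * F x + ((1 / 2) * ((1 + (m : ℝ)⁻¹) * F y +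
          (1 + (m : ℝ)) * r ^ 2) + (-1 / 4) * F (x⁻¹ * s * y)))) := by
      refine E_mono S m fun x => E_mono S m fun y => ?_
      rw [hF]
      beta_reduce
      have h3 := cn_mid o (x • o) ((s * y) • o)
      have h4 : dist (x • o) ((s * y) • o) = dist o ((x⁻¹ * s * y) • o) := by
        rw [← hiso x⁻¹ (x • o) ((s * y) • o), inv_smul_smul, ← mul_smul, mul_assoc]
      rw [h4] at h3
      have h5 : dist o ((s * y) • o) ^ 2 ≤ (1 + (m : ℝ)⁻¹) * dist o (y • o) ^ 2 +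
          (1 + (m : ℝ)) * r ^ 2 := by
        refine young_sh hmR dist_nonneg ?_
        have t1 := dist_triangle o (s • o) ((s * y) • o)
        rw [mul_smul, hiso] at t1
        rw [mul_smul]
        have t3 := hrs s hs
        linarith
      linarith
    refine h2.trans ?_
    have h3 : E S m (fun x => E S m (fun y => F (x⁻¹ * s * y))) = D s := by
      rw [hD]
      exact E_inv S hS m (fun x => E S m (fun y => F (x * s * y)))
    have h4 : E S m (fun x => E S m (fun y => (1 / 2) * F x + ((1 / 2) * ((1 + (m : ℝ)⁻¹) * F y +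
          (1 + (m : ℝ)) * r ^ 2) + (-1 / 4) * F (x⁻¹ * s * y)))) =
        (1 / 2) * b m + ((1 / 2) * ((1 + (m : ℝ)⁻¹) * b m + (1 + (m : ℝ)) * r ^ 2) +
          (-1 / 4) * D s) := by
      simp only [E_add, E_smul, E_const S hne]
      rw [h3, hb]
    rw [h4]
    have h5 : r ^ 2 ≤ r ^ 2 * m := by nlinarith
    nlinarith
  refine hmid.trans ?_
  have hfin : b m + (b 1 + 2 * r ^ 2) * m / 2 - D s / 4 ≤
      q * ((m : ℝ) ^ 2 * (β j - β (j + 1))) + C * m := by
    have h2 : 0 ≤ 4 * b 1 * m + (1 + m) * r ^ 2 := by positivity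
    have h3 : 4 * b m - q * ((4 * b m - b (m + m)) + (12 * b 1 + 6 * r ^ 2) * m) ≤ D s := by
      rw [hU] at hDs
      linarith
    have h4 : 4 * b m - b (m + m) = 4 * ((m : ℝ) ^ 2 * (β j - β (j + 1))) := by
      rw [hbm, hb2m]
      ring
    rw [h4] at h3
    rw [hC]
    linarith
  refine hfin.trans ?_
  have h5 : q * (β j - β (j + 1)) ≤ η / 2 := by
    have h6 := mul_le_mul_of_nonneg_left hj1.le (by linarith : (0 : ℝ) ≤ q)
    have h7 : q * (η / (2 * q)) = η / 2 := by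
      field_simp
    rw [h7] at h6
    exact h6
  have h8 : C ≤ η / 2 * m := by
    rw [div_le_iff₀ hη] at hj2
    linarith
  have h9 : q * ((m : ℝ) ^ 2 * (β j - β (j + 1))) ≤ η / 2 * (m : ℝ) ^ 2 := by
    have h10 := mul_le_mul_of_nonneg_right h5 (sq_nonneg (m : ℝ))
    linarith
  have h11 : C * m ≤ η / 2 * (m : ℝ) ^ 2 := by
    have h12 := mul_le_mul_of_nonneg_right h8 hmR.le
    linarith
  linarith

end TitsLF
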